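import Pool.Agent.H.MP_f5ceca_al.N.Integ
import Pool.Agent.H.MP_f5ceca_al.N.Om

/-!
Job: an explicit noetherian subring of the polynomial ring in the gap variables which stabilizes all layers.
-/

namespace Pool.Agent.H.MP_f5ceca_al.E

open Pool.Agent.H.MP_f5ceca_al.N

universe u

variable (K : Type u) [Field K] (n : ℕ)

/-- The subalgebra generated by the `X(0,j)` and the elementary symmetric functions of the differences
`h_a = X(a+1,j) - X(a,j)`. -/
noncomputable def StE (k : ℕ) : Subalgebra K (RX K n k) :=
  Algebra.adjoin K (Set.range (fun j : Fin n => gX K n k 0 j) ∪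
    Set.range (fun p : Fin n × Fin (k + 1) =>
      ((Finset.univ : Finset (Fin k)).val.map (hh K n k (xx K p.1) 1)).esymm p.2))

/-- PROOF. `Algebra.adjoin_le`, `X_zero_mem_St`, `esymm_mem_St`. -/
theorem StE_le_St [Infinite K] (k : ℕ) {T : Submodule K (FA K n)} (hT : IsOp K n T) :
    StE K n k ≤ St K n T k := by
  refine Algebra.adjoin_le ?_
  rintro x (⟨j, rfl⟩ | ⟨p, rfl⟩)
  · exact X_zero_mem_St hT k j
  · exact esymm_mem_St hT K k (xx K p.1) 1 p.2 (Nat.lt_succ_iff.1 p.2.2)

theorem StE_X_zero_mem (k : ℕ) (j : Fin n) : gX K n k 0 j ∈ StE K n k :=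
  Algebra.subset_adjoin (Or.inl ⟨j, rfl⟩)

theorem StE_esymm_mem (k : ℕ) (j : Fin n) (s : ℕ) (hs : s ≤ k) :
    ((Finset.univ : Finset (Fin k)).val.map (hh K n k (xx K j) 1)).esymm s ∈ StE K n k :=
  Algebra.subset_adjoin (Or.inr ⟨(j, ⟨s, Nat.lt_succ_of_le hs⟩), rfl⟩)

/-- PROOF. Same as `N.isIntegral_X` (copy the proof, with `StE` instead of `St`). -/
theorem isIntegral_StE (k : ℕ) (a : Fin (k + 1)) (j : Fin n) :
    IsIntegral (StE K n k) (gX K n k a j) := by
  classical
  have step : ∀ a : Fin k, IsIntegral (StE K n k) (hh K n k (xx K j) 1 a) := by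
    intro a
    obtain ⟨P, hP⟩ : ∃ P : Polynomial (RX K n k), P =
        (((Finset.univ : Finset (Fin k)).val.map (hh K n k (xx K j) 1)).map
          fun r => Polynomial.X - Polynomial.C r).prod := ⟨_, rfl⟩
    have hcard : Multiset.card ((Finset.univ : Finset (Fin k)).val.map
        (hh K n k (xx K j) 1)) = k := by
      rw [Multiset.card_map]
      exact (Finset.card_univ).trans (Fintype.card_fin k)
    have hmonic : P.Monic := by
      rw [hP]
      exact Polynomial.monic_multiset_prod_of_monic _ _ fun r _ => Polynomial.monic_X_sub_C r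
    have hcoef : ∀ m, P.coeff m ∈ StE K n k := by
      intro m
      by_cases hm : m ≤ k
      · rw [hP, Multiset.prod_X_sub_C_coeff _ (hcard.symm ▸ hm), hcard]
        exact mul_mem (pow_mem (neg_mem (one_mem _)) _)
          (StE_esymm_mem K n k j (k - m) (Nat.sub_le _ _))
      · have hdeg : P.natDegree ≤ k := by
          rw [hP]
          refine (Polynomial.natDegree_multiset_prod_X_sub_C_eq_card _).le.trans hcard.le
        rw [Polynomial.coeff_eq_zero_of_natDegree_lt (lt_of_le_of_lt hdeg (not_le.1 hm))]
        exact zero_mem _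
    have hl : P ∈ Polynomial.lifts (algebraMap (StE K n k) (RX K n k)) := by
      rw [Polynomial.lifts_iff_coeff_lifts]
      exact fun m => ⟨⟨_, hcoef m⟩, rfl⟩
    obtain ⟨q, hq, -, hqm⟩ := Polynomial.lifts_and_natDegree_eq_and_monic hl hmonic
    refine ⟨q, hqm, ?_⟩
    rw [← Polynomial.eval_map, hq, hP, Polynomial.eval_multiset_prod]
    refine Multiset.prod_eq_zero ?_
    rw [Multiset.map_map, Multiset.mem_map]
    refine ⟨hh K n k (xx K j) 1 a, Multiset.mem_map_of_mem _ (Finset.mem_univ a), ?_⟩
    simp
  have hval : ∀ b : Fin (k + 1), ev K n k b (xx K j) = gX K n k b j := fun b => by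
    unfold ev xx
    exact FreeAlgebra.lift_ι_apply _ _
  have hha : ∀ a : Fin k, gX K n k a.succ j = gX K n k a.castSucc j + hh K n k (xx K j) 1 a := by
    intro a
    unfold hh
    rw [hval, hval, map_one, mul_one]
    ring
  induction a using Fin.induction with
  | zero => exact isIntegral_algebraMap (x := (⟨_, StE_X_zero_mem K n k j⟩ : StE K n k))
  | succ a ih =>
    rw [hha]
    exact ih.add (step a)

/-- PROOF. Same as `N.finite_St`. -/
theorem finite_StE (k : ℕ) : Module.Finite (StE K n k) (RX K n k) := by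
  have h1 : Algebra.IsIntegral (StE K n k) (RX K n k) := by
    refine ⟨fun x => ?_⟩
    induction x using MvPolynomial.induction_on with
    | C r => exact isIntegral_algebraMap (x := algebraMap K (StE K n k) r)
    | add p q hp hq => exact hp.add hq
    | mul_X p i hp => exact hp.mul (isIntegral_StE K n k i.1 i.2)
  have h2 : Algebra.FiniteType (StE K n k) (RX K n k) :=
    Algebra.FiniteType.of_restrictScalars_finiteType K _ _
  exact Algebra.IsIntegral.finite

/-- PROOF. `StE` is generated by a finite set, so `Algebra.FiniteType K` (`Subalgebra.fg_iff_finiteType`, `Subalgebra.fg_adjoin_finset`), and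
`Algebra.FiniteType.isNoetherianRing`. -/
theorem noetherian_StE (k : ℕ) : IsNoetherianRing (StE K n k) := by
  have h0 : (Set.range (fun j : Fin n => gX K n k 0 j) ∪
      Set.range (fun p : Fin n × Fin (k + 1) =>
        ((Finset.univ : Finset (Fin k)).val.map (hh K n k (xx K p.1) 1)).esymm p.2)).Finite :=
    (Set.finite_range _).union (Set.finite_range _)
  have h1 : (StE K n k).FG := ⟨h0.toFinset, by rw [Set.Finite.coe_toFinset]; rfl⟩
  have h2 : Algebra.FiniteType K (StE K n k) := (StE K n k).fg_iff_finiteType.1 h1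
  exact Algebra.FiniteType.isNoetherianRing K _

/-- PROOF. `Omega` is finitely generated over `RX` (`Omega_fg`), hence over `StE` (`finite_StE`, `Module.Finite.trans`), hence noetherian. -/
theorem noetherian_Omega (k : ℕ) : IsNoetherian (StE K n k) (Omega K n k) := by
  have h1 : Module.Finite (RX K n k) (Omega K n k) := Module.Finite.iff_fg.2 (Omega_fg K n k)
  have h2 : Module.Finite (StE K n k) (RX K n k) := finite_StE K n k
  have h3 : Module.Finite (StE K n k) (Omega K n k) :=
    Module.Finite.trans (R := StE K n k) (RX K n k) (Omega K n k)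
  have h4 : IsNoetherianRing (StE K n k) := noetherian_StE K n k
  exact isNoetherian_of_isNoetherianRing_of_finite (StE K n k) (Omega K n k)

/-- The layer as a module over `StE`. -/
noncomputable def StE_lay [Infinite K] (k : ℕ) {T : Submodule K (FA K n)} (hT : IsOp K n T) :
    Submodule (StE K n k) (RZ K n k) where
  carrier := (Lay K n T k : Set (RZ K n k))
  add_mem' := fun {_ _} hx hy => (Lay K n T k).add_mem hx hy
  zero_mem' := Submodule.zero_mem (Lay K n T k)
  smul_mem' := fun s u hu => StE_le_St K n k hT s.2 u hu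

theorem StE_lay_fg [Infinite K] (k : ℕ) {T : Submodule K (FA K n)} (hT : IsOp K n T) :
    (StE_lay K n k hT).FG := by
  have h1 : IsNoetherian (StE K n k) (Omega K n k) := noetherian_Omega K n k
  have h2 : IsNoetherian (StE K n k) ((Omega K n k).restrictScalars (StE K n k)) := h1
  have h3 : StE_lay K n k hT ≤ (Omega K n k).restrictScalars (StE K n k) := by
    intro u hu
    obtain ⟨z, _, rfl⟩ := Submodule.mem_map.1 (show u ∈ Lay K n T k from hu)
    exact sym_mem_Omega K n k z
  exact isNoetherian_submodule.1 h2 _ h3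

/-- PROOF. `Lay T k` is a `StE`-submodule of `Omega` (`StE_le_St`, `sym_mem_Omega`), so generated over `StE` by finitely many symbols of elements of
`T ∩ Fil k`; the `StE`-span of these symbols is contained in `Lay T' k` for every operator-stable `T'` which contains these elements. -/
theorem exists_lay_gen [Infinite K] (k : ℕ) {T : Submodule K (FA K n)} (hT : IsOp K n T) :
    ∃ Y : Finset (FA K n), (Y : Set (FA K n)) ⊆ (T ⊓ Fil K n k : Submodule K (FA K n)) ∧
      ∀ T' : Submodule K (FA K n), IsOp K n T' → (Y : Set (FA K n)) ⊆ T' →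
        Lay K n T k ≤ Lay K n T' k := by
  classical
  obtain ⟨t, ht⟩ := StE_lay_fg K n k hT
  have h1 : ∀ v : t, ∃ z : FA K n, z ∈ (T ⊓ Fil K n k : Submodule K (FA K n)) ∧
      sym K n k z = v.1 := by
    intro v
    have h2 : v.1 ∈ StE_lay K n k hT := by
      rw [← ht]
      exact Submodule.subset_span v.2
    exact Submodule.mem_map.1 (show v.1 ∈ Lay K n T k from h2)
  choose z hz hzs using h1
  refine ⟨Finset.univ.image z, ?_, ?_⟩
  · intro y hy
    obtain ⟨v, _, rfl⟩ := Finset.mem_image.1 (Finset.mem_coe.1 hy)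
    exact hz v
  · intro T' hT' hY u hu
    have h3 : u ∈ StE_lay K n k hT := hu
    have h4 : StE_lay K n k hT ≤ StE_lay K n k hT' := by
      rw [← ht, Submodule.span_le]
      intro v hv
      show v ∈ Lay K n T' k
      refine Submodule.mem_map.2 ⟨z ⟨v, hv⟩, ⟨?_, (hz ⟨v, hv⟩).2⟩, hzs ⟨v, hv⟩⟩
      exact hY (Finset.mem_coe.2 (Finset.mem_image_of_mem z (Finset.mem_univ _)))
    exact h4 h3

end Pool.Agent.H.MP_f5ceca_al.E
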