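import Pool.Agent.H.MP_f5ceca_al.E.Tgen
import Pool.Agent.H.MP_f5ceca_al.E.StE
import Pool.Agent.H.MP_f5ceca_al.N.Lewin

/-!
Job: T-ideals which contain a power of the commutator ideal are finitely generated modulo this power.
-/

namespace Pool.Agent.H.MP_f5ceca_al.E

open Pool.Agent.H.MP_f5ceca_al.N (FA xx Com Fil Aug idn)

universe u

/-- PROOF. For `k < p` let `Y_k` be as in `exists_lay_gen`, `Y` their union, `T' = Tg Y ≤ T`. Claim: `T ∩ Fil k ≤ T' + Fil p` for all `k ≤ p`, by
descending induction: `k = p` clear; `z ∈ T ∩ Fil k`: `sym z ∈ Lay T k ≤ Lay T' k`, so there is `y ∈ T' ∩ Fil k` with the same symbol, `z - y ∈ Fil (k+1)`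
(`N.mem_Fil_succ`), and `z - y ∈ T`. `k = 0` is the claim (`N.Fil_zero`). -/
theorem bottom_fg {K : Type u} [Field K] [CharZero K] {n p : ℕ} {T : Submodule K (FA K n)}
    (hT : IsT T) : ∃ Y : Finset (FA K n), (Y : Set (FA K n)) ⊆ T ∧
      T ≤ Tg (Y : Set (FA K n)) ⊔ Fil K n p := by
  classical
  choose Y hY1 hY2 using fun k => exists_lay_gen K n k hT.isOp
  have hZT : (((Finset.range p).biUnion Y : Finset (FA K n)) : Set (FA K n)) ⊆ T := by
    intro z hz
    obtain ⟨k, _, hk⟩ := Finset.mem_biUnion.1 (Finset.mem_coe.1 hz)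
    exact (hY1 k (Finset.mem_coe.2 hk)).1
  refine ⟨(Finset.range p).biUnion Y, hZT, ?_⟩
  generalize hZ : (Finset.range p).biUnion Y = Z at hZT
  have hop : N.IsOp K n (Tg (Z : Set (FA K n))) := (isT_Tg _).isOp
  have key : ∀ j ≤ p, ∀ z ∈ T, z ∈ Fil K n (p - j) →
      z ∈ Tg (Z : Set (FA K n)) ⊔ Fil K n p := by
    intro j
    induction j with
    | zero => exact fun _ z _ hz => Submodule.mem_sup_right hz
    | succ j ih =>
      intro hj z hzT hz
      have hk : p - (j + 1) < p := by omega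
      have hs : N.sym K n (p - (j + 1)) z ∈ N.Lay K n T (p - (j + 1)) :=
        Submodule.mem_map_of_mem ⟨hzT, hz⟩
      have h2 := hY2 (p - (j + 1)) (Tg (Z : Set (FA K n))) hop (fun y hy => subset_Tg _ (by
        rw [← hZ]
        exact Finset.mem_coe.2 (Finset.mem_biUnion.2 ⟨_, Finset.mem_range.2 hk,
          Finset.mem_coe.1 hy⟩))) hs
      obtain ⟨y, ⟨hyT, hyF⟩, hyz⟩ := h2
      have h3 : z - y ∈ Fil K n (p - (j + 1) + 1) :=
        N.mem_Fil_succ K n _ (sub_mem hz hyF) (by rw [map_sub, hyz, sub_self])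
      have h4 : p - (j + 1) + 1 = p - j := by omega
      rw [h4] at h3
      have h5 := ih (by omega) (z - y) (sub_mem hzT (Tg_le hT hZT hyT)) h3
      have h6 : z = (z - y) + y := by abel
      rw [h6]
      exact add_mem h5 (Submodule.mem_sup_left hyT)
  intro z hz
  exact key p le_rfl z hz (by rw [Nat.sub_self, N.Fil_zero]; trivial)

end Pool.Agent.H.MP_f5ceca_al.E
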