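import Pool.Agent.H.MP_f5ceca_al.E.Link
import Pool.Agent.H.MP_f5ceca_al.BR.FDefs
import Pool.Agent.H.MP_f5ceca_al.BR.Full
import Pool.Agent.H.MP_f5ceca_al.S.Defs

/-!
The hypotheses `S.Base` of the deep part for the identities of the variety defined by one identity
`f` with `¬ WCond f`.
-/

namespace Pool.Agent.H.MP_f5ceca_al.E

open Pool.Agent.H.MP_f5ceca_al.N

universe u

variable {K : Type u} [Field K] {n : ℕ}

/-- (E2') in the free algebra. -/
theorem e2_idn {S : Set (FreeAlgebra K ℕ)} {M : ℕ} (E : BR.EBlock S M) {z a x b : FA K n}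
    (hz : z ∈ Aug K n) (ha : a ∈ Aug K n) (hx : x ∈ Aug K n) (hb : b ∈ Aug K n) :
    BR.sev z ![a, x, b] (Pool.Agent.H.MP_f5ceca_al.S.polE K M) ∈ idn S n := by
  obtain ⟨B, _, _, π, hπ, hI⟩ := exists_quotient (idn S n) (fun a z hz => idn_left S n a hz)
    (fun a z hz => idn_right S n a hz)
  have hP : BR.IsIdl (Aug K n) := ⟨fun a x hx => Aug_left a hx, fun a x hx => Aug_right a hx⟩
  have hP' := BR.idl_map π hπ hP
  have hS := BR.holds_quot π (idn S n) hI le_rfl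
  have key := E.e2 _ hP' hS M le_rfl (π z) ⟨z, hz, rfl⟩ (π x) ⟨x, hx, rfl⟩ (π a) ⟨a, ha, rfl⟩
    (π b) ⟨b, hb, rfl⟩
  rw [← hI, BR.map_sev]
  have h1 : (fun i => π (![a, x, b] i)) = ![π a, π x, π b] := by
    funext i
    fin_cases i <;> rfl
  rw [h1]
  exact key

/-- Identities of the generic matrices are identities of `M_2(K)`. -/
theorem Jd_le_J2 : S.Jd K n ≤ BR.J2 K (Fin n) := by
  intro z hz v
  have hz' : S.rho2 K n z = 0 := hz
  let φ : S.A2 K n →ₐ[K] K := MvPolynomial.aeval fun i => v i.1 i.2.1 i.2.2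
  have h1 : (φ.mapMatrix (m := Fin 2)).comp (S.rho2 K n) = FreeAlgebra.lift K v := by
    apply FreeAlgebra.hom_ext
    funext j
    ext a b
    simp [S.rho2, S.gm, φ]
  have h2 := DFunLike.congr_fun h1 z
  rw [AlgHom.comp_apply, hz', map_zero] at h2
  exact h2.symm

theorem base_of_eblock [CharZero K] {S : Set (FreeAlgebra K ℕ)} {M : ℕ} (hM : 1 ≤ M)
    (E : BR.EBlock S M) (n : ℕ) : ∃ m : ℕ, Pool.Agent.H.MP_f5ceca_al.S.Base m M (idn S n) := by
  obtain ⟨m, hm⟩ := BR.br_main E n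
  refine ⟨m, ⟨⟨fun a z hz => idn_left S n a hz, fun a z hz => idn_right S n a hz⟩, hM, ?_, ?_⟩⟩
  · refine le_trans ?_ hm
    exact mul_le_mul' (mul_le_mul' Jd_le_J2 le_rfl) Jd_le_J2
  · intro z hz a ha x hx b hb
    exact e2_idn E hz ha hx hb

/-- The deep part can be applied to `idn {f} n`. -/
theorem base_one [CharZero K] {f : FreeAlgebra K ℕ} (h : ¬ G.WCond f) (n : ℕ) :
    ∃ m M : ℕ, S.Base m M (idn ({f} : Set (FreeAlgebra K ℕ)) n) := by
  obtain ⟨M, hM, E⟩ := eblock_one h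
  obtain ⟨m, hm⟩ := base_of_eblock hM E n
  exact ⟨m, M, hm⟩

/-- The hypotheses are inherited by larger ideals. -/
theorem base_mono {m M : ℕ} {T T' : Submodule K (FA K n)} (h : S.Base m M T) (h' : S.IsId T')
    (hle : T ≤ T') : S.Base m M T' :=
  ⟨h', h.Mpos, h.h1.trans hle, fun z hz a ha x hx b hb => hle (h.h2 z hz a ha x hx b hb)⟩

end Pool.Agent.H.MP_f5ceca_al.E
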