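import Pool.Agent.H.MP_f5ceca_al.E.TIdn
import Pool.Agent.H.MP_f5ceca_al.G.J6
import Pool.Agent.H.MP_f5ceca_al.N.Final
import Pool.Agent.H.MP_f5ceca_al.N.LocRep

/-!
Job: decidability for T-ideals which contain a power of the commutator ideal.
-/

namespace Pool.Agent.H.MP_f5ceca_al.E

open Pool.Agent.H.MP_f5ceca_al.N (FA xx Com Fil Aug idn)
open Pool.Agent.H.MP_f5ceca_al.Conv

universe u

theorem Bot_com {K : Type u} [Field K] {n : ℕ} (a b : FA K n) : a * b - b * a ∈ Com K n :=
  Submodule.subset_span ⟨1, 1, a, b, by rw [one_mul, mul_one]⟩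

theorem Bot_fil {K : Type u} [Field K] {n : ℕ} (a b : FA K n) (p : ℕ) :
    (a * b - b * a) ^ p ∈ Fil K n p := by
  have h1 : (a * b - b * a) ^ p ∈ Com K n ^ p := Submodule.pow_mem_pow _ (Bot_com a b) p
  have h2 := Submodule.mul_mem_mul (show (1 : FA K n) ∈ (⊤ : Submodule K (FA K n)) from trivial) h1
  rw [one_mul] at h2
  exact h2

theorem Bot_tsp {K : Type u} [Field K] {n : ℕ} (R : Set (FA K n)) :
    G.tspan K R = Pool.Agent.H.MP_f5ceca_al.S.tsp R := by
  unfold G.tspan Pool.Agent.H.MP_f5ceca_al.S.tsp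
  congr 1
  ext z
  constructor
  · rintro ⟨a, b, g, hg, rfl⟩
    exact ⟨a, g, b, hg, rfl⟩
  · rintro ⟨a, g, b, hg, rfl⟩
    exact ⟨a, b, g, hg, rfl⟩

theorem Bot_sat {K : Type u} [Field K] {S : Set (FreeAlgebra K ℕ)}
    (h : ∃ f ∈ S, ∃ y : ℕ → Matrix (Fin 2) (Fin 2) K, FreeAlgebra.lift K y f ≠ 0) :
    ¬ N.Satisfies S (Matrix (Fin 2) (Fin 2) K) := by
  obtain ⟨f, hf, y, hy⟩ := h
  intro hs
  apply hy
  have h1 := hs f hf y
  have h3 : (Unitization.lift (NonUnitalAlgHom.id K (Matrix (Fin 2) (Fin 2) K))).comp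
      (FreeAlgebra.lift K (fun i =>
        ((y i : Matrix (Fin 2) (Fin 2) K) : Unitization K (Matrix (Fin 2) (Fin 2) K)))) =
      FreeAlgebra.lift K y := by
    apply FreeAlgebra.hom_ext
    funext i
    simp
  have h4 := DFunLike.congr_fun h3 f
  rw [← h4, AlgHom.comp_apply, h1, map_zero]

/-- A product of commutators is not an identity of `M_2(K)`.

PROOF. `f = ([x_0,x_1])^p` if the value `[e_12, e_21] = e_11 - e_22` is used: its `p`-th power is not `0`. `f ∈ idset T`: its values are in `Fil p`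
(`Com ^ p`). -/
theorem fails_of_fil {K : Type u} [Field K] [CharZero K] {n p : ℕ} {T : Submodule K (FA K n)}
    (hp : Fil K n p ≤ T) : ∃ f ∈ idset T, ∃ y : ℕ → Matrix (Fin 2) (Fin 2) K,
      FreeAlgebra.lift K y f ≠ 0 := by
  refine ⟨(FreeAlgebra.ι K 0 * FreeAlgebra.ι K 1 - FreeAlgebra.ι K 1 * FreeAlgebra.ι K 0) ^ p,
    ?_, fun i => if i = 0 then Matrix.single 0 1 1 else if i = 1 then Matrix.single 1 0 1 else 0,
    ?_⟩
  · intro g _
    rw [map_pow, map_sub, map_mul, map_mul, FreeAlgebra.lift_ι_apply, FreeAlgebra.lift_ι_apply]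
    exact hp (Bot_fil _ _ p)
  · rw [map_pow, map_sub, map_mul, map_mul, FreeAlgebra.lift_ι_apply, FreeAlgebra.lift_ι_apply]
    have h1 : (Matrix.single 0 1 1 * Matrix.single 1 0 1 - Matrix.single 1 0 1 *
        Matrix.single 0 1 1 : Matrix (Fin 2) (Fin 2) K) = Matrix.diagonal ![1, -1] := by
      ext i j
      fin_cases i <;> fin_cases j <;> simp [Matrix.mul_apply, Matrix.single]
    simp only [if_true, one_ne_zero, if_false]
    rw [h1, Matrix.diagonal_pow]
    intro h2
    have h3 := congrFun (congrFun h2 0) 0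
    simp at h3

/-- PROOF. `S' = idset T`, `idn S' n = T` (`idn_idset`), `S ⊆ S'` (`subset_idset`), so `¬ IncludesW S'`. If all elements of `S'` have constant
term zero: `G.dec_of_locrep` for `S'`, with `fails_of_fil`, and `G.LocRep S' n` is obtained as in `Results/MP_f5ceca_al/NonMatrix.lean`
(`N.nmrep` and `G.locRep_of_nmrep`; `¬ Satisfies S' (M_2 K)` by `fails_of_fil`: see `G.fails_of_not_satisfies` for the converse direction; use
`G.vanish_of_identity`-like argument or evaluate via `Unitization.lift`). Otherwise `T = ⊤` (`G.identities_eq_univ`). Then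
`TwoSidedIdeal.span (T ∪ R)` as a set is `T ⊔ tsp R` (`G.mem_span_iff_sup`, `G.tspan K R = S.tsp R`: same set of generators). `G.wd K = Conv.wd K` by `rfl`. -/
theorem dec_bottom {K : Type u} [Field K] [CharZero K] (κ : CField K)
    {S : Set (FreeAlgebra K ℕ)} (hW : ¬ G.IncludesW S) {n p : ℕ} {T : Submodule K (FA K n)}
    (hT : IsT T) (hS : idn S n ≤ T) (hp : Fil K n p ≤ T) {R : Set (FA K n)} (hR : R.Finite) :
    ComputablePred fun P : List (ℕ × List (Fin n)) => κ.ev (Conv.wd K) P ∈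
      T ⊔ Pool.Agent.H.MP_f5ceca_al.S.tsp R := by
  have hsub : S ⊆ idset T := subset_idset hS
  have hW' : ¬ G.IncludesW (idset T) := by
    intro h
    apply hW
    intro A _ _ _ _ hA f hf
    exact h A hA f (hsub hf)
  have hset : G.identities (idset T) n = (T : Set (FA K n)) := by
    have h1 : ((idn (idset T) n : Submodule K (FA K n)) : Set (FA K n)) = (T : Set (FA K n)) := by
      rw [idn_idset hT]
    exact h1
  by_cases hS0 : ∀ f ∈ idset T, FreeAlgebra.algebraMapInv f = 0
  · have hfail := fails_of_fil hp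
    have hrep : G.LocRep (idset T) n := by
      obtain ⟨Q, _, _, _, _, _, B, v, hv, hB, hSB, hid⟩ := N.nmrep (idset T) (Bot_sat hfail) n
      exact G.locRep_of_nmrep B v hv hB hS0 hSB fun z hz => (hid z).1 hz
    refine (G.dec_of_locrep κ hW' hfail hrep hR).of_eq fun P => ?_
    have htsi : G.IsTSI T := fun a u b hu => hT.right b _ (hT.left a _ hu)
    rw [hset, G.mem_span_iff_sup htsi, Bot_tsp]
    exact Iff.rfl
  · have htop : T = ⊤ := by
      rw [G.identities_eq_univ hS0] at hset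
      exact (SetLike.coe_injective (hset.symm.trans Submodule.top_coe.symm))
    refine (ComputablePred.computable_iff.2
      ⟨fun _ => true, Computable.const _, rfl⟩).of_eq fun P => ?_
    rw [htop, top_sup_eq]
    exact ⟨fun _ => trivial, fun _ => rfl⟩

end Pool.Agent.H.MP_f5ceca_al.E
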