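import Pool.Agent.H.MP_f5ceca_al.E.PPf
import Pool.Agent.H.MP_f5ceca_al.BR.Merge

/-!
Job: conversion between `evz` (products in `P2 B`) and slot polynomials in `z`.
-/

namespace Pool.Agent.H.MP_f5ceca_al.E

open Pool.Agent.H.MP_f5ceca_al.G
open MvPolynomial (X)

universe u v w

variable {K : Type u} [Field K] {B : Type v} [Ring B] [Algebra K B]

/-- Slot polynomials in `z` for words whose letters are in `P2 B`; the outer multiplications are the variables `l`, `r`. -/
noncomputable def Ev (z : B) {q : ℕ} (Q : Fin q → P2 B) (R : MvPolynomial (Fin (q + 1)) K) : B :=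
  evz K z (BR.sev (em z) Q R)

theorem ConvA_swd_sub (z : B) {q : ℕ} (a : Fin q → B) (i : Fin q) (x y : B)
    (e : Fin (q + 1) → ℕ) :
    BR.swd z (Function.update a i (x - y)) e =
      BR.swd z (Function.update a i x) e - BR.swd z (Function.update a i y) e := by
  induction q with
  | zero => exact i.elim0
  | succ q ih =>
    rw [BR.swd_succ, BR.swd_succ, BR.swd_succ]
    refine Fin.cases ?_ (fun j => ?_) i
    · rw [Function.update_self, Function.update_self, Function.update_self,
        BR.tail_update_zero, BR.tail_update_zero, BR.tail_update_zero, mul_sub, sub_mul]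
    · have h1 : (0 : Fin (q + 1)) ≠ j.succ := (Fin.succ_ne_zero _).symm
      rw [Function.update_of_ne h1, Function.update_of_ne h1, Function.update_of_ne h1,
        BR.tail_update_succ, BR.tail_update_succ, BR.tail_update_succ, ih, mul_sub]

theorem ConvA_swd_central (z : B) {q : ℕ} (a : Fin q → B) (i : Fin q) (c : B)
    (hc : ∀ x : B, c * x = x * c) (e : Fin (q + 1) → ℕ) :
    BR.swd z (Function.update a i (a i * c)) e = c * BR.swd z a e := by
  induction q with
  | zero => exact i.elim0
  | succ q ih =>
    rw [BR.swd_succ, BR.swd_succ]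
    refine Fin.cases ?_ (fun j => ?_) i
    · rw [Function.update_self, BR.tail_update_zero]
      rw [← mul_assoc (z ^ e 0), ← hc (z ^ e 0 * a 0), mul_assoc c]
    · have h1 : (0 : Fin (q + 1)) ≠ j.succ := (Fin.succ_ne_zero _).symm
      rw [Function.update_of_ne h1, BR.tail_update_succ]
      have := ih (Fin.tail a) j (Fin.tail e)
      rw [show Fin.tail a j = a j.succ from rfl] at this
      rw [this, ← mul_assoc, ← mul_assoc, hc (z ^ e 0 * a 0)]

/-- PROOF. `BR.sev` commutes with the ring homomorphism `em` (`BR.map_swd`, on monomials), `evz_em`. -/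
theorem Ev_em (z : B) {q : ℕ} (a : Fin q → B) (R : MvPolynomial (Fin (q + 1)) K) :
    Ev z (fun i => em (a i)) R = BR.sev z a R := by
  have h : (evz K z).comp (BR.sev (K := K) (em z) (fun i => em (a i))) =
      BR.sev (K := K) z a := by
    refine BR.sev_ext fun e => ?_
    rw [LinearMap.comp_apply, BR.sev_monomial, BR.sev_monomial, one_smul, one_smul]
    have h1 := BR.map_swd (em (A := B)) z a e
    rw [← h1, evz_em]
  exact LinearMap.congr_fun h R

theorem Ev_add (z : B) {q : ℕ} (Q : Fin q → P2 B) (R R' : MvPolynomial (Fin (q + 1)) K) :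
    Ev z Q (R + R') = Ev z Q R + Ev z Q R' := by
  unfold Ev
  rw [map_add, map_add]

theorem Ev_one (z : B) {q : ℕ} (Q : Fin q → P2 B) :
    Ev (K := K) z Q 1 = evz K z (List.ofFn Q).prod := by
  unfold Ev
  rw [BR.sev_one]

/-- Additivity of `BR.sev` in a letter. PROOF. On monomials: `BR.swd` is additive in each letter (induction on `q`). -/
theorem sev_update_sub (z : B) {q : ℕ} (a : Fin q → B) (i : Fin q) (x y : B)
    (R : MvPolynomial (Fin (q + 1)) K) :
    BR.sev z (Function.update a i (x - y)) R =
      BR.sev z (Function.update a i x) R - BR.sev z (Function.update a i y) R := by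
  have h : BR.sev (K := K) z (Function.update a i (x - y)) =
      BR.sev (K := K) z (Function.update a i x) - BR.sev (K := K) z (Function.update a i y) := by
    refine BR.sev_ext fun e => ?_
    rw [LinearMap.sub_apply, BR.sev_monomial, BR.sev_monomial, BR.sev_monomial, one_smul,
      one_smul, one_smul]
    exact ConvA_swd_sub z a i x y e
  exact LinearMap.congr_fun h R

/-- PROOF. On monomials, `c` commutes with everything. -/
theorem sev_update_central (z : B) {q : ℕ} (a : Fin q → B) (i : Fin q) (c : B)
    (hc : ∀ x : B, c * x = x * c) (R : MvPolynomial (Fin (q + 1)) K) :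
    BR.sev z (Function.update a i (a i * c)) R = c * BR.sev z a R := by
  have h : BR.sev (K := K) z (Function.update a i (a i * c)) =
      (LinearMap.mulLeft K c).comp (BR.sev (K := K) z a) := by
    refine BR.sev_ext fun e => ?_
    rw [LinearMap.comp_apply, LinearMap.mulLeft_apply, BR.sev_monomial, BR.sev_monomial,
      one_smul, one_smul]
    exact ConvA_swd_central z a i c hc e
  exact LinearMap.congr_fun h R

/-- PROOF. `BR.sev_succ` for `X i.succ`; `BR.sev_left` and `evz_em_mul`, `evz_lv_mul`: `evz (em z * Y) = z * evz Y = evz (lv * Y)`, and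
`sev_update_central` with `c = lv B` (`lv_comm`). Then `sev_update_sub`. -/
theorem Ev_X_sub_left (z : B) {q : ℕ} (Q : Fin q → P2 B) (i : Fin q)
    (R : MvPolynomial (Fin (q + 1)) K) :
    Ev z Q ((X i.succ - X 0) * R) = Ev z (Function.update Q i (Q i * (em z - lv B))) R := by
  unfold Ev
  rw [sub_mul, map_sub, map_sub, BR.sev_succ, BR.sev_left, evz_em_mul z z rfl, ← evz_lv_mul,
    ← sev_update_central (em z) Q i (lv B) lv_comm R, ← map_sub, ← sev_update_sub, ← mul_sub]

/-- PROOF. Same with `BR.sev_right`, `evz_mul_em`, `evz_rv_mul`, `rv_comm`. -/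
theorem Ev_X_sub_right (z : B) {q : ℕ} (Q : Fin q → P2 B) (i : Fin q)
    (R : MvPolynomial (Fin (q + 1)) K) :
    Ev z Q ((X i.succ - X (Fin.last q)) * R) =
      Ev z (Function.update Q i (Q i * (em z - rv B))) R := by
  unfold Ev
  rw [sub_mul, map_sub, map_sub, BR.sev_succ, BR.sev_right, evz_mul_em z z rfl, ← evz_rv_mul,
    ← sev_update_central (em z) Q i (rv B) rv_comm R, ← map_sub, ← sev_update_sub, ← mul_sub]

theorem Ev_X (z : B) {q : ℕ} (Q : Fin q → P2 B) (i : Fin q)
    (R : MvPolynomial (Fin (q + 1)) K) :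
    Ev z Q (X i.succ * R) = Ev z (Function.update Q i (Q i * em z)) R := by
  unfold Ev
  rw [BR.sev_succ]

/-- PROOF. `Ev_X`, `Ev_X_sub_left`, `Ev_X_sub_right`, `Function.update_idem`. -/
theorem Ev_u (z : B) {q : ℕ} (Q : Fin q → P2 B) (i : Fin q)
    (R : MvPolynomial (Fin (q + 1)) K) :
    Ev z Q ((X i.succ * (X i.succ - X 0) * (X i.succ - X (Fin.last q))) * R) =
      Ev z (Function.update Q i (Q i * uq z)) R := by
  rw [mul_assoc, mul_assoc, Ev_X, Ev_X_sub_left, Ev_X_sub_right, Function.update_idem,
    Function.update_idem, Function.update_self, Function.update_self]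
  unfold uq
  simp only [mul_assoc]

theorem Ev_u_pow (z : B) {q : ℕ} (M : ℕ) (Q : Fin q → P2 B) (i : Fin q)
    (R : MvPolynomial (Fin (q + 1)) K) :
    Ev z Q ((X i.succ * (X i.succ - X 0) * (X i.succ - X (Fin.last q))) ^ M * R) =
      Ev z (Function.update Q i (Q i * uq z ^ M)) R := by
  induction M generalizing Q with
  | zero => rw [pow_zero, one_mul, pow_zero, mul_one, Function.update_eq_self]
  | succ M ih =>
    rw [pow_succ', mul_assoc, Ev_u, ih, Function.update_idem, Function.update_self, mul_assoc,
      ← pow_succ']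

end Pool.Agent.H.MP_f5ceca_al.E
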