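import Pool.Agent.H.MP_f5ceca_al.E.ConvA

/-!
Job: final form of the conversion between `evz` (products in `P2 B`) and slot polynomials in `z`.
-/

namespace Pool.Agent.H.MP_f5ceca_al.E

open Pool.Agent.H.MP_f5ceca_al.G
open MvPolynomial (X)

universe u v w

variable {K : Type u} [Field K] {B : Type v} [Ring B] [Algebra K B]

theorem ConvE_u (z : B) {q : ℕ} (M : ℕ) (Q : Fin q → P2 B) (i : Fin q) (j l : Fin (q + 1))
    (hj : i.succ = j) (hl : Fin.last q = l) (R : MvPolynomial (Fin (q + 1)) K) :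
    Ev z Q ((X j * (X j - X 0) * (X j - X l)) ^ M * R) =
      Ev z (Function.update Q i (Q i * uq z ^ M)) R := by
  subst hj
  subst hl
  exact Ev_u_pow z M Q i R

theorem ConvE_X (z : B) {q : ℕ} (Q : Fin q → P2 B) (i : Fin q) (j : Fin (q + 1))
    (hj : i.succ = j) (R : MvPolynomial (Fin (q + 1)) K) :
    Ev z Q (X j * R) = Ev z (Function.update Q i (Q i * em z)) R := by
  subst hj
  exact Ev_X z Q i R

theorem ConvE_l4 (a b c d : P2 B) : (List.ofFn ![a, b, c, d]).prod = a * (b * (c * d)) := by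
  simp [List.ofFn_succ]

theorem ConvE_l3 (a b c : P2 B) : (List.ofFn ![a, b, c]).prod = a * (b * c) := by
  simp [List.ofFn_succ]

/-- Four letters. PROOF. `Ev_em`, `Ev_u_pow` for `i = 0, 1, 2`, `Ev_one`. -/
theorem conv_four (z a x w b : B) (M : ℕ) :
    BR.sev (K := K) z ![a, x, w, b]
      ((X 1 * (X 1 - X 0) * (X 1 - X 4) * (X 2 * (X 2 - X 0) * (X 2 - X 4)) *
        (X 3 * (X 3 - X 0) * (X 3 - X 4))) ^ M) =
      evz K z (em a * uq z ^ M * em x * uq z ^ M * em w * uq z ^ M * em b) := by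
  have e0 : ((X 1 * (X 1 - X 0) * (X 1 - X 4) * (X 2 * (X 2 - X 0) * (X 2 - X 4)) *
        (X 3 * (X 3 - X 0) * (X 3 - X 4))) ^ M : MvPolynomial (Fin 5) K) =
      (X 1 * (X 1 - X 0) * (X 1 - X 4)) ^ M * ((X 2 * (X 2 - X 0) * (X 2 - X 4)) ^ M *
        ((X 3 * (X 3 - X 0) * (X 3 - X 4)) ^ M * 1)) := by
    rw [mul_one, mul_pow (X 1 * (X 1 - X 0) * (X 1 - X 4) * (X 2 * (X 2 - X 0) * (X 2 - X 4))),
      mul_pow (X 1 * (X 1 - X 0) * (X 1 - X 4)), mul_assoc]
  rw [e0, ← Ev_em]
  have eQ : (fun i => em (![a, x, w, b] i) : Fin 4 → P2 B) = ![em a, em x, em w, em b] := by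
    funext i
    fin_cases i <;> rfl
  rw [eQ, ConvE_u z M _ 0 1 4 rfl rfl, ConvE_u z M _ 1 2 4 rfl rfl, ConvE_u z M _ 2 3 4 rfl rfl,
    Ev_one]
  have eU : Function.update (Function.update (Function.update ![em a, em x, em w, em b] 0
      (![em a, em x, em w, em b] 0 * uq z ^ M)) 1
      (Function.update ![em a, em x, em w, em b] 0
      (![em a, em x, em w, em b] 0 * uq z ^ M) 1 * uq z ^ M)) 2
      (Function.update (Function.update ![em a, em x, em w, em b] 0
      (![em a, em x, em w, em b] 0 * uq z ^ M)) 1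
      (Function.update ![em a, em x, em w, em b] 0
      (![em a, em x, em w, em b] 0 * uq z ^ M) 1 * uq z ^ M) 2 * uq z ^ M) =
      ![em a * uq z ^ M, em x * uq z ^ M, em w * uq z ^ M, em b] := by
    funext i
    fin_cases i <;> rfl
  rw [eU, ConvE_l4]
  simp only [mul_assoc]

theorem ConvE_comm (z : B) (m : ℕ) : em z * uq z ^ m = uq z ^ m * em z :=
  (Commute.pow_left (uq_comm_em z) m).symm

theorem ConvE_a (z a x b : B) (m k : ℕ) :
    Ev (K := K) z ![em a, em x, em b] (X 2 * (X 1 *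
        ((X 1 * (X 1 - X 0) * (X 1 - X 3)) ^ m *
        ((X 2 * (X 2 - X 0) * (X 2 - X 3)) ^ k * 1)))) =
      evz K z (em a * em z * uq z ^ m * (em x * em z * uq z ^ k) * em b) := by
  rw [ConvE_X z _ 1 2 rfl, ConvE_X z _ 0 1 rfl, ConvE_u z m _ 0 1 3 rfl rfl,
    ConvE_u z k _ 1 2 3 rfl rfl, Ev_one]
  have e1 : Function.update ![em a, em x, em b] 1 (![em a, em x, em b] 1 * em z) =
      ![em a, em x * em z, em b] := by
    funext i
    fin_cases i <;> rfl
  have e2 : Function.update ![em a, em x * em z, em b] 0 (![em a, em x * em z, em b] 0 * em z) =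
      ![em a * em z, em x * em z, em b] := by
    funext i
    fin_cases i <;> rfl
  have e3 : Function.update ![em a * em z, em x * em z, em b] 0
      (![em a * em z, em x * em z, em b] 0 * uq z ^ m) =
      ![em a * em z * uq z ^ m, em x * em z, em b] := by
    funext i
    fin_cases i <;> rfl
  have e4 : Function.update ![em a * em z * uq z ^ m, em x * em z, em b] 1
      (![em a * em z * uq z ^ m, em x * em z, em b] 1 * uq z ^ k) =
      ![em a * em z * uq z ^ m, em x * em z * uq z ^ k, em b] := by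
    funext i
    fin_cases i <;> rfl
  rw [e1, e2, e3, e4, ConvE_l3]
  simp only [mul_assoc]

theorem ConvE_b (z a x b : B) (m k : ℕ) :
    Ev (K := K) z ![em a, em x, em b] (X 1 * (X 1 *
        ((X 1 * (X 1 - X 0) * (X 1 - X 3)) ^ m *
        ((X 2 * (X 2 - X 0) * (X 2 - X 3)) ^ k * 1)))) =
      evz K z (em a * em z * uq z ^ m * (em z * em x * uq z ^ k) * em b) := by
  rw [ConvE_X z _ 0 1 rfl, ConvE_X z _ 0 1 rfl, ConvE_u z m _ 0 1 3 rfl rfl,
    ConvE_u z k _ 1 2 3 rfl rfl, Ev_one]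
  have e1 : Function.update ![em a, em x, em b] 0 (![em a, em x, em b] 0 * em z) =
      ![em a * em z, em x, em b] := by
    funext i
    fin_cases i <;> rfl
  have e2 : Function.update ![em a * em z, em x, em b] 0 (![em a * em z, em x, em b] 0 * em z) =
      ![em a * em z * em z, em x, em b] := by
    funext i
    fin_cases i <;> rfl
  have e3 : Function.update ![em a * em z * em z, em x, em b] 0
      (![em a * em z * em z, em x, em b] 0 * uq z ^ m) =
      ![em a * em z * em z * uq z ^ m, em x, em b] := by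
    funext i
    fin_cases i <;> rfl
  have e4 : Function.update ![em a * em z * em z * uq z ^ m, em x, em b] 1
      (![em a * em z * em z * uq z ^ m, em x, em b] 1 * uq z ^ k) =
      ![em a * em z * em z * uq z ^ m, em x * uq z ^ k, em b] := by
    funext i
    fin_cases i <;> rfl
  rw [e1, e2, e3, e4, ConvE_l3]
  congr 1
  calc em a * em z * em z * uq z ^ m * (em x * uq z ^ k * em b)
      = em a * em z * (em z * uq z ^ m) * em x * uq z ^ k * em b := by simp only [mul_assoc]
    _ = em a * em z * (uq z ^ m * em z) * em x * uq z ^ k * em b := by rw [ConvE_comm]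
    _ = _ := by simp only [mul_assoc]

/-- Three letters. PROOF. Same; `X 2 - X 1` gives the difference of the values for the letters `a z u^(2M)`, `x z u^M` and `a z z u^(2M)`, `x u^M`; `em z`
commutes with `uq z`. -/
theorem conv_three (z a x b : B) (M : ℕ) :
    BR.sev (K := K) z ![a, x, b]
      ((X 2 - X 1) * X 1 * ((X 1 * (X 1 - X 0) * (X 1 - X 3)) ^ 2 *
        (X 2 * (X 2 - X 0) * (X 2 - X 3))) ^ M) =
      evz K z (em (a * z) * uq z ^ (2 * M) * em (x * z - z * x) * uq z ^ M * em b) := by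
  have e0 : ((X 2 - X 1) * X 1 * ((X 1 * (X 1 - X 0) * (X 1 - X 3)) ^ 2 *
        (X 2 * (X 2 - X 0) * (X 2 - X 3))) ^ M : MvPolynomial (Fin 4) K) =
      X 2 * (X 1 * ((X 1 * (X 1 - X 0) * (X 1 - X 3)) ^ (2 * M) *
        ((X 2 * (X 2 - X 0) * (X 2 - X 3)) ^ M * 1))) -
      X 1 * (X 1 * ((X 1 * (X 1 - X 0) * (X 1 - X 3)) ^ (2 * M) *
        ((X 2 * (X 2 - X 0) * (X 2 - X 3)) ^ M * 1))) := by
    rw [mul_one, mul_pow ((X 1 * (X 1 - X 0) * (X 1 - X 3)) ^ 2), ← pow_mul]
    generalize (X 1 * (X 1 - X 0) * (X 1 - X 3) : MvPolynomial (Fin 4) K) ^ (2 * M) = p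
    generalize (X 2 * (X 2 - X 0) * (X 2 - X 3) : MvPolynomial (Fin 4) K) ^ M = r
    ring
  have h3 : ∀ R R' : MvPolynomial (Fin 4) K,
      Ev z ![em a, em x, em b] (R - R') =
        Ev z ![em a, em x, em b] R - Ev z ![em a, em x, em b] R' := by
    intro R R'
    unfold Ev
    rw [map_sub, map_sub]
  have eQ : (fun i => em (![a, x, b] i) : Fin 3 → P2 B) = ![em a, em x, em b] := by
    funext i
    fin_cases i <;> rfl
  rw [e0, ← Ev_em, eQ, h3, ConvE_a, ConvE_b, ← map_sub]
  congr 1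
  rw [map_sub, map_mul, map_mul, map_mul]
  simp only [mul_sub, sub_mul, mul_assoc]

end Pool.Agent.H.MP_f5ceca_al.E
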