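import Pool.Agent.H.MP_f5ceca_al.E.OneA

/-!
Job: the Cayley-Hamilton trick; exponents of `u` can be moved over one middle element.
-/

namespace Pool.Agent.H.MP_f5ceca_al.E

open Pool.Agent.H.MP_f5ceca_al.G
open MvPolynomial (X)

universe u v w

variable {K : Type u} [Field K] {B : Type v} [Ring B] [Algebra K B]

/-- The product of the two-term factors. -/
theorem OneB_prod {R : Type*} [CommRing R] {m : ℕ} {i j : Fin m} (hij : i ≠ j) (g : Fin m → R)
    (V W : R) (hi : g i = 1) (hj : g j = V) (hk : ∀ k, k ≠ i → k ≠ j → g k = W) :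
    W ^ 2 * ∏ k, g k = W ^ m * V := by
  classical
  have hm : 2 ≤ m := by
    have h1 := i.isLt
    have h2 := j.isLt
    have h3 : (i : ℕ) ≠ j := fun h => hij (Fin.ext h)
    omega
  have e1 : ∏ k, g k = g i * (g j * ∏ k ∈ (Finset.univ.erase i).erase j, g k) := by
    rw [Finset.mul_prod_erase _ _ (Finset.mem_erase.2 ⟨hij.symm, Finset.mem_univ _⟩),
      Finset.mul_prod_erase _ _ (Finset.mem_univ i)]
  have e2 : ∏ k ∈ (Finset.univ.erase i).erase j, g k = W ^ (m - 2) := by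
    rw [Finset.prod_congr rfl (g := fun _ => W) (fun k hk' => by
      have h1 := Finset.mem_erase.1 hk'
      have h2 := Finset.mem_erase.1 h1.2
      exact hk k h2.1 h1.1), Finset.prod_const,
      Finset.card_erase_of_mem (Finset.mem_erase.2 ⟨hij.symm, Finset.mem_univ _⟩),
      Finset.card_erase_of_mem (Finset.mem_univ i), Finset.card_univ, Fintype.card_fin]
    congr 1
  rw [e1, e2, hi, hj, one_mul]
  obtain ⟨r, rfl⟩ := Nat.exists_eq_add_of_le hm
  rw [Nat.add_sub_cancel_left, pow_add]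
  ring

/-- Cayley-Hamilton trick. PROOF. For `k ≠ i, j` let `q k 0 = X 1 + X 2`, `q k 1 = -1`, and `q i 0 = q j 0 = 1`, `q i 1 = q j 1 = 0`. The sum over all
`n : Fin m → Fin 2` of `(∏ k, q k (n k)) * (relation of one_rel for n + 1)` is in the ideal. By `Finset.prod_univ_sum` it is
`∑_l c l • (X 1 X 2)^2 * ∏ k, (q k 0 * vv k + q k 1 * vv k ^ 2)`, and for `k ≠ i, j` the factor is `(X 1 + X 2) v - v ^ 2 = X 1 X 2` for `v = X 1` and
`v = X 2`; the factor is `1` for `k = i` and `vv j` for `k = j`. -/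
theorem one_ch {z : B} {m : ℕ} (c : List (Fin m) → K) {i j : Fin m} (hij : i ≠ j)
    (h : ∀ n : Fin m → ℕ, (∀ k, 1 ≤ n k) →
      ∑ l ∈ LL m, c l • ((X 1 * X 2) ^ 2 * ∏ k, vv K i l k ^ n k) ∈ IA K z) :
    ∑ l ∈ LL m, c l • ((X 1 * X 2) ^ m * vv K i l j) ∈ IA K z := by
  classical
  let q : Fin m → Fin 2 → MvPolynomial (Fin 4) K := fun k e =>
    if k = i ∨ k = j then (if e = 0 then 1 else 0) else (if e = 0 then X 1 + X 2 else -1)
  have key : ∑ ν : Fin m → Fin 2, (∏ k, q k (ν k)) *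
      (∑ l ∈ LL m, c l • ((X 1 * X 2) ^ 2 * ∏ k, vv K i l k ^ ((ν k : ℕ) + 1))) ∈ IA K z :=
    Ideal.sum_mem _ fun ν _ => Ideal.mul_mem_left _ _
      (h (fun k => (ν k : ℕ) + 1) fun k => Nat.le_add_left 1 _)
  have e : ∑ ν : Fin m → Fin 2, (∏ k, q k (ν k)) *
      (∑ l ∈ LL m, c l • ((X 1 * X 2) ^ 2 * ∏ k, vv K i l k ^ ((ν k : ℕ) + 1))) =
      ∑ l ∈ LL m, c l • ((X 1 * X 2) ^ m * vv K i l j) := by
    simp only [Finset.mul_sum]
    rw [Finset.sum_comm]
    refine Finset.sum_congr rfl fun l _ => ?_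
    have e1 : ∀ ν : Fin m → Fin 2, (∏ k, q k (ν k)) *
        (c l • ((X 1 * X 2) ^ 2 * ∏ k, vv K i l k ^ ((ν k : ℕ) + 1))) =
        c l • ((X 1 * X 2) ^ 2 * ∏ k, (q k (ν k) * vv K i l k ^ ((ν k : ℕ) + 1))) := by
      intro ν
      rw [mul_smul_comm, Finset.prod_mul_distrib]
      congr 1
      ring
    rw [Finset.sum_congr rfl fun ν _ => e1 ν, ← Finset.smul_sum, ← Finset.mul_sum]
    congr 1
    have e2 : ∑ ν : Fin m → Fin 2, ∏ k, (q k (ν k) * vv K i l k ^ ((ν k : ℕ) + 1)) =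
        ∏ k, ∑ e : Fin 2, (q k e * vv K i l k ^ ((e : ℕ) + 1)) := by
      rw [Finset.prod_univ_sum, Fintype.piFinset_univ]
    rw [e2]
    refine OneB_prod hij _ _ _ ?_ ?_ ?_
    · simp [q, vv]
    · simp [q]
    · intro k hki hkj
      have hq0 : q k 0 = X 1 + X 2 := by simp [q, hki, hkj]
      have hq1 : q k 1 = -1 := by simp [q, hki, hkj]
      rw [Fin.sum_univ_two, hq0, hq1]
      unfold vv
      rw [if_neg hki]
      split_ifs
      · simp only [Fin.val_zero, Fin.val_one]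
        ring
      · simp only [Fin.val_zero, Fin.val_one]
        ring
  rw [← e]
  exact key

/-- PROOF. For `l ∈ LL m`: `prs i j l + prs j i l = 1` (`prs_add`, all counts are `1`), so `vv K i l j = (1 - prs i j l) X 1 + prs i j l X 2`. Hence the
sum in `one_ch` is `κ • ((X 1 X 2) ^ m (X 2 - X 1))`, `κ ≠ 0`. Evaluate at the letters `a * u ^ (p - m)`, `x`, `u ^ (q - m) * b` (`mem_IA`,
`BR.sev_three_letters`). -/
theorem one_final {z : B} {m : ℕ} (c : List (Fin m) → K) {i j : Fin m} (hij : i ≠ j)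
    (h0 : ∑ l ∈ LL m, c l = 0) (h1 : ∑ l ∈ LL m, c l * (prs i j l : K) ≠ 0)
    (h : ∑ l ∈ LL m, c l • ((X 1 * X 2) ^ m * vv K i l j) ∈ IA K z) : EOne K m z := by
  classical
  have hv : ∀ l ∈ LL m, vv K i l j = X 1 + (prs i j l : K) • (X 2 - X 1) := by
    intro l hl
    have h2 := prs_add hij l
    have hc : ∀ k : Fin m, l.count k = 1 := fun k =>
      List.count_eq_one_of_mem (nodup_of_mem_LL hl) (mem_of_mem_LL hl k)
    rw [hc, hc] at h2
    unfold vv
    rw [if_neg hij.symm]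
    by_cases h3 : prs j i l = 0
    · rw [if_pos h3]
      have h4 : prs i j l = 1 := by omega
      rw [h4, Nat.cast_one, one_smul]
      ring
    · rw [if_neg h3]
      have h4 : prs i j l = 0 := by omega
      rw [h4, Nat.cast_zero, zero_smul, add_zero]
  have e : ∑ l ∈ LL m, c l • ((X 1 * X 2) ^ m * vv K i l j) =
      (∑ l ∈ LL m, c l * (prs i j l : K)) •
        ((X 1 * X 2) ^ m * (X 2 - X 1) : MvPolynomial (Fin 4) K) := by
    have e1 : ∀ l ∈ LL m, c l • ((X 1 * X 2) ^ m * vv K i l j) =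
        c l • ((X 1 * X 2) ^ m * X 1 : MvPolynomial (Fin 4) K) +
        (c l * (prs i j l : K)) • ((X 1 * X 2) ^ m * (X 2 - X 1)) := by
      intro l hl
      rw [hv l hl, mul_add, smul_add, mul_smul_comm, smul_smul]
    rw [Finset.sum_congr rfl e1, Finset.sum_add_distrib, ← Finset.sum_smul, ← Finset.sum_smul, h0,
      zero_smul, zero_add]
  rw [e] at h
  have h2 : ((X 1 * X 2) ^ m * (X 2 - X 1) : MvPolynomial (Fin 4) K) ∈ IA K z := by
    have h3 := Ideal.mul_mem_left (IA K z)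
      (MvPolynomial.C ((∑ l ∈ LL m, c l * (prs i j l : K))⁻¹)) h
    rwa [← MvPolynomial.smul_eq_C_mul, smul_smul, inv_mul_cancel₀ h1, one_smul] at h3
  intro a x b p q hp hq
  obtain ⟨p', rfl⟩ := Nat.exists_eq_add_of_le hp
  obtain ⟨q', rfl⟩ := Nat.exists_eq_add_of_le hq
  have h4 := mem_IA.1 h2 (a * uq z ^ p') x (uq z ^ q' * b)
  have e2 : ((X 1 * X 2) ^ m * (X 2 - X 1) : MvPolynomial (Fin 4) K) =
      X 0 ^ 0 * X 1 ^ m * X 2 ^ (m + 1) * X 3 ^ 0 - X 0 ^ 0 * X 1 ^ (m + 1) * X 2 ^ m * X 3 ^ 0 := by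
    ring
  rw [e2, map_sub, map_sub, BR.sev_three_letters, BR.sev_three_letters] at h4
  have h5 := sub_eq_zero.1 h4
  have e3 : uq z ^ 0 * (a * uq z ^ p') * uq z ^ (m + 1) * x * uq z ^ m * (uq z ^ q' * b) *
      uq z ^ 0 = a * uq z ^ (m + p' + 1) * x * uq z ^ (m + q') * b := by
    rw [show m + p' + 1 = p' + (m + 1) by omega, pow_add (uq z) p', pow_add (uq z) m q']
    simp only [pow_zero, one_mul, mul_one, mul_assoc]
  have e4 : uq z ^ 0 * (a * uq z ^ p') * uq z ^ m * x * uq z ^ (m + 1) * (uq z ^ q' * b) *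
      uq z ^ 0 = a * uq z ^ (m + p') * x * uq z ^ (m + q' + 1) * b := by
    rw [show m + q' + 1 = (m + 1) + q' by omega, show m + p' = p' + m by omega,
      pow_add (uq z) p', pow_add (uq z) (m + 1) q']
    simp only [pow_zero, one_mul, mul_one, mul_assoc]
  rw [e3, e4] at h5
  exact h5.symm

end Pool.Agent.H.MP_f5ceca_al.E
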