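import Pool.Agent.H.MP_f5ceca_al.E.PPf

/-!
Job: words with one middle element as slot polynomials in `u`.
-/

namespace Pool.Agent.H.MP_f5ceca_al.E

open Pool.Agent.H.MP_f5ceca_al.G
open MvPolynomial (X)

universe u v w

variable {K : Type u} [Field K] {B : Type v} [Ring B] [Algebra K B]

theorem closed_univ (z : B) : BR.Closed (uq z) (fun _ : Fin 3 => (Set.univ : Set (P2 B))) :=
  BR.closed_of (fun _ _ _ => Set.mem_univ _) (fun _ _ _ => Set.mem_univ _)

/-- The slot polynomials in `u` for words `a x b` which are killed by `evz`. -/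
noncomputable def IA (K : Type u) [Field K] [Algebra K B] (z : B) :
    Ideal (MvPolynomial (Fin 4) K) :=
  BR.Ann (uq z) (LinearMap.ker (evz K z)) (fun _ : Fin 3 => Set.univ) (closed_univ z)

theorem mem_IA {z : B} {R : MvPolynomial (Fin 4) K} :
    R ∈ IA K z ↔ ∀ a x b : P2 B, evz K z (BR.sev (uq z) ![a, x, b] R) = 0 := by
  unfold IA
  rw [BR.mem_Ann]
  constructor
  · intro h a x b
    exact LinearMap.mem_ker.1 (h ![a, x, b] fun _ => Set.mem_univ _)
  · intro h a _
    have e : a = ![a 0, a 1, a 2] := by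
      funext i
      fin_cases i <;> rfl
    rw [e]
    exact LinearMap.mem_ker.2 (h _ _ _)

/-- The slot of the letter `k` of the word `l`: `X 1` before `i`, `X 2` after `i`. -/
noncomputable def vv (K : Type u) [Field K] {m : ℕ} (i : Fin m) (l : List (Fin m)) (k : Fin m) :
    MvPolynomial (Fin 4) K :=
  if k = i then 1 else if prs k i l = 0 then X 2 else X 1

theorem OneA_prs_right {X : Type} [DecidableEq X] {i j : X} {l : List X} (h : j ∉ l) :
    prs i j l = 0 := by
  induction l with
  | nil => rfl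
  | cons x l ih =>
    rw [List.mem_cons, not_or] at h
    show (if x = i then l.count j else 0) + prs i j l = 0
    rw [ih h.2, List.count_eq_zero_of_not_mem h.2, ite_self]

theorem OneA_prs_skip {X : Type} [DecidableEq X] {k i : X} {l l' : List X} (h : k ∉ l) :
    prs k i (l ++ l') = prs k i l' := by
  induction l with
  | nil => rfl
  | cons x l ih =>
    rw [List.mem_cons, not_or] at h
    show (if x = k then (l ++ l').count i else 0) + prs k i (l ++ l') = prs k i l'
    rw [ih h.2, if_neg (Ne.symm h.1), zero_add]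

theorem OneA_prs_before {X : Type} [DecidableEq X] {k i : X} {l l' : List X} (h : k ∈ l) :
    prs k i (l ++ i :: l') ≠ 0 := by
  induction l with
  | nil => exact absurd h List.not_mem_nil
  | cons x l ih =>
    show (if x = k then (l ++ i :: l').count i else 0) + prs k i (l ++ i :: l') ≠ 0
    rcases List.mem_cons.1 h with h1 | h1
    · have h2 : 0 < (l ++ i :: l').count i := List.count_pos_iff.2 (by simp)
      rw [if_pos h1.symm]
      omega
    · have h2 := ih h1
      omega

theorem OneA_prod {M : Type*} [Monoid M] {X : Type} (g : X → M) (u : M) (n : X → ℕ) (l : List X)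
    (h : ∀ k ∈ l, g k = u ^ n k) : (l.map g).prod = u ^ (l.map n).sum := by
  induction l with
  | nil => simp
  | cons x l ih =>
    rw [List.map_cons, List.map_cons, List.prod_cons, List.sum_cons, pow_add,
      ih fun k hk => h k (List.mem_cons_of_mem _ hk), h x List.mem_cons_self]

/-- PROOF. `l = l₁ ++ i :: l₂` (`List.append_of_mem`), `l.Nodup`. `(l₁.map Y).prod = u ^ (l₁.map n).sum`, same for `l₂`
(`List.map_congr_left`, induction). `∏ k, vv K i l k ^ n k = X 1 ^ (l₁.map n).sum * X 2 ^ (l₂.map n).sum`: the product over `univ` is the product over the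
list `l` (`mem_LL`), and `prs k i l = 1` for `k ∈ l₁`, `= 0` for `k ∈ l₂` (induction on `l₁`). Finally `BR.sev_three_letters` with exponents `0` at the
outer slots. -/
theorem one_word {z : B} {m : ℕ} {l : List (Fin m)} (hl : l ∈ LL m) (i : Fin m) (n : Fin m → ℕ)
    (a x b : P2 B) :
    a * uq z * (l.map fun k => if k = i then uq z * x * uq z else uq z ^ n k).prod * (uq z * b) =
      BR.sev (K := K) (uq z) ![a, x, b] ((X 1 * X 2) ^ 2 * ∏ k, vv K i l k ^ n k) := by
  have hnd := nodup_of_mem_LL hl
  obtain ⟨l₁, l₂, e⟩ := List.append_of_mem (mem_of_mem_LL hl i)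
  have hm := mem_LL.1 hl
  rw [e] at hnd
  have hnd' := List.nodup_append.1 hnd
  have hi1 : i ∉ l₁ := fun h => hnd'.2.2 i h i List.mem_cons_self rfl
  have hi2 : i ∉ l₂ := (List.nodup_cons.1 hnd'.2.1).1
  have h12 : ∀ k ∈ l₂, k ∉ l₁ := fun k h h' => hnd'.2.2 k h' k (List.mem_cons_of_mem _ h) rfl
  have hne1 : ∀ k ∈ l₁, k ≠ i := fun k hk h => hi1 (h ▸ hk)
  have hne2 : ∀ k ∈ l₂, k ≠ i := fun k hk h => hi2 (h ▸ hk)
  -- the right hand side
  have hR : ∏ k, vv K i l k ^ n k =
      ((X 1 : MvPolynomial (Fin 4) K)) ^ (l₁.map n).sum * X 2 ^ (l₂.map n).sum := by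
    have h1 : ∏ k, vv K i l k ^ n k = (l.map fun k => vv K i l k ^ n k).prod := by
      show ((Finset.univ : Finset (Fin m)).val.map fun k => vv K i l k ^ n k).prod = _
      rw [← hm, Multiset.map_coe, Multiset.prod_coe]
    have h2 : vv K i l i ^ n i = 1 := by
      unfold vv
      rw [if_pos rfl, one_pow]
    have h3 : ∀ k ∈ l₁, vv K i l k ^ n k = (X 1 : MvPolynomial (Fin 4) K) ^ n k := by
      intro k hk
      unfold vv
      rw [if_neg (hne1 k hk), if_neg]
      rw [e]
      exact OneA_prs_before hk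
    have h4 : ∀ k ∈ l₂, vv K i l k ^ n k = (X 2 : MvPolynomial (Fin 4) K) ^ n k := by
      intro k hk
      unfold vv
      rw [if_neg (hne2 k hk), if_pos]
      rw [e, OneA_prs_skip (h12 k hk)]
      show (if i = k then l₂.count i else 0) + prs k i l₂ = 0
      rw [OneA_prs_right hi2, if_neg (Ne.symm (hne2 k hk))]
    rw [h1]
    have h5 : (l.map fun k => vv K i l k ^ n k).prod =
        ((l₁ ++ i :: l₂).map fun k => vv K i l k ^ n k).prod := by rw [← e]
    rw [h5, List.map_append, List.prod_append, List.map_cons, List.prod_cons, h2, one_mul,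
      OneA_prod _ _ n l₁ h3, OneA_prod _ _ n l₂ h4]
  -- the left hand side
  have hL : (l.map fun k => if k = i then uq z * x * uq z else uq z ^ n k).prod =
      uq z ^ (l₁.map n).sum * (uq z * x * uq z * uq z ^ (l₂.map n).sum) := by
    rw [e, List.map_append, List.prod_append, List.map_cons, List.prod_cons, if_pos rfl,
      OneA_prod _ (uq z) n l₁ fun k hk => if_neg (hne1 k hk),
      OneA_prod _ (uq z) n l₂ fun k hk => if_neg (hne2 k hk)]
  have h6 := BR.sev_three_letters (K := K) (uq z) a x b 0 ((l₁.map n).sum + 2)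
    ((l₂.map n).sum + 2) 0
  have h7 : ((X 1 * X 2 : MvPolynomial (Fin 4) K)) ^ 2 *
      (X 1 ^ (l₁.map n).sum * X 2 ^ (l₂.map n).sum) =
      X 0 ^ 0 * X 1 ^ ((l₁.map n).sum + 2) * X 2 ^ ((l₂.map n).sum + 2) * X 3 ^ 0 := by
    ring
  have h8 : ∀ s : ℕ, uq z ^ (s + 2) = uq z * uq z ^ s * uq z := fun s => by
    rw [pow_succ, pow_succ']
  rw [hR, hL, h7, h6, h8, h8]
  simp only [mul_assoc, pow_zero, one_mul, mul_one]

end Pool.Agent.H.MP_f5ceca_al.E
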