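import Pool.Agent.H.MP_f5ceca_al.E.Mid
import Pool.Agent.H.MP_f5ceca_al.E.OneA

/-!
Job: the relations with one middle element.
-/

namespace Pool.Agent.H.MP_f5ceca_al.E

open Pool.Agent.H.MP_f5ceca_al.G
open MvPolynomial (X)

universe u v w

variable {K : Type u} [Field K] {B : Type v} [Ring B] [Algebra K B]

/-- PROOF. `mid` with `Y k = if k = i then u x u else u ^ n k`, `one_word`, linearity of `evz` and `sev`. -/
theorem one_rel [CharZero K] {Y : Type} [DecidableEq Y] {P : Submodule K B}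
    (hP : ∀ a u b : B, u ∈ P → a * u * b ∈ P) {f : FreeAlgebra K Y}
    (hf : ∀ y : Y → B, (∀ x, y x ∈ P) → FreeAlgebra.lift K y f = 0) {z : B} (hz : z ∈ P) {m : ℕ}
    (t : Fin m → Y) (α β : Y) (i : Fin m) (n : Fin m → ℕ) (hn : ∀ k, 1 ≤ n k) :
    ∑ l ∈ LL m, cf f (α :: (l.map t ++ [β])) • ((X 1 * X 2) ^ 2 * ∏ k, vv K i l k ^ n k) ∈
      IA K z := by
  rw [mem_IA]
  intro a x b
  have h1 := mid (K := K) hP hf hz t α β
    (fun k => if k = i then uq z * x * uq z else uq z ^ n k)
    (fun k => by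
      by_cases hk : k = i
      · exact ⟨x * uq z, by simp only [if_pos hk, mul_assoc]⟩
      · refine ⟨uq z ^ (n k - 1), ?_⟩
        simp only [if_neg hk]
        rw [← pow_succ', Nat.sub_add_cancel (hn k)])
    (fun k => by
      by_cases hk : k = i
      · exact ⟨uq z * x, by simp only [if_pos hk]⟩
      · refine ⟨uq z ^ (n k - 1), ?_⟩
        simp only [if_neg hk]
        rw [← pow_succ, Nat.sub_add_cancel (hn k)]) a b
  rw [map_sum, map_sum, ← h1]
  refine Finset.sum_congr rfl fun l hl => ?_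
  rw [map_smul, map_smul, ← one_word hl i n a x b]

end Pool.Agent.H.MP_f5ceca_al.E
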