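import Pool.Agent.H.MP_f5ceca_al.E.Defs

/-!
Job: words with two middle elements.
-/

namespace Pool.Agent.H.MP_f5ceca_al.E

open Pool.Agent.H.MP_f5ceca_al.G

universe u v w

variable {K : Type u} [Field K] {B : Type v} [Ring B] [Algebra K B]

theorem TwoA_prs_left {X : Type} [DecidableEq X] {i j : X} {l : List X} (h : i ∉ l) :
    prs i j l = 0 := by
  induction l with
  | nil => rfl
  | cons x l ih =>
    simp only [List.mem_cons, not_or] at h
    rw [prs, ih h.2, if_neg (fun e => h.1 e.symm)]

theorem TwoA_prs_right {X : Type} [DecidableEq X] {i j : X} {l : List X} (h : j ∉ l) :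
    prs i j l = 0 := by
  induction l with
  | nil => rfl
  | cons x l ih =>
    simp only [List.mem_cons, not_or] at h
    rw [prs, ih h.2, List.count_eq_zero_of_not_mem h.2]
    simp

/-- PROOF. Induction on `l` (words without `i`, `j`). -/
theorem word_none {m : ℕ} {U : Type v} [Ring U] (u x w : U) {i j : Fin m} (l : List (Fin m))
    (hi : i ∉ l) (hj : j ∉ l) :
    (l.map fun k => if k = i then u ^ m * x * u ^ m else if k = j then u ^ m * w * u ^ m
      else u).prod = u ^ l.length := by
  induction l with
  | nil => simp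
  | cons k l ih =>
    simp only [List.mem_cons, not_or] at hi hj
    rw [List.map_cons, List.prod_cons, ih hi.2 hj.2, if_neg (fun e => hi.1 e.symm),
      if_neg (fun e => hj.1 e.symm), List.length_cons, pow_succ']

/-- PROOF. `l = l₁ ++ i :: l₂`, `word_none`. -/
theorem word_left {m : ℕ} {U : Type v} [Ring U] (u x w : U) {i j : Fin m} (hij : i ≠ j)
    (l : List (Fin m)) (hl : l.Nodup) (hi : i ∈ l) (hj : j ∉ l) :
    ∃ A C : ℕ, m ≤ A ∧ m ≤ C ∧ A + C + 1 = 2 * m + l.length ∧
    (l.map fun k => if k = i then u ^ m * x * u ^ m else if k = j then u ^ m * w * u ^ m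
      else u).prod = u ^ A * x * u ^ C := by
  induction l with
  | nil => exact absurd hi (by simp)
  | cons k l ih =>
    obtain ⟨hk, hl'⟩ := List.nodup_cons.1 hl
    have hj' := hj
    simp only [List.mem_cons, not_or] at hj'
    by_cases h : k = i
    · subst h
      refine ⟨m, m + l.length, le_rfl, Nat.le_add_right _ _, ?_, ?_⟩
      · rw [List.length_cons]
        ring
      · rw [List.map_cons, List.prod_cons, word_none u x w l hk hj'.2, if_pos rfl, pow_add]
        simp only [mul_assoc]
    · have hi' : i ∈ l := (List.mem_cons.1 hi).resolve_left (fun e => h e.symm)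
      obtain ⟨A, C, h1, h2, h3, h4⟩ := ih hl' hi' hj'.2
      refine ⟨A + 1, C, by omega, h2, ?_, ?_⟩
      · rw [List.length_cons]
        omega
      · rw [List.map_cons, List.prod_cons, h4, if_neg h, if_neg (fun e => hj'.1 e.symm), pow_succ']
        simp only [mul_assoc]

/-- PROOF. `l = l₁ ++ j :: l₂`, `word_none`. -/
theorem word_right {m : ℕ} {U : Type v} [Ring U] (u x w : U) {i j : Fin m} (hij : i ≠ j)
    (l : List (Fin m)) (hl : l.Nodup) (hi : i ∉ l) (hj : j ∈ l) :
    ∃ A C : ℕ, m ≤ A ∧ m ≤ C ∧ A + C + 1 = 2 * m + l.length ∧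
    (l.map fun k => if k = i then u ^ m * x * u ^ m else if k = j then u ^ m * w * u ^ m
      else u).prod = u ^ A * w * u ^ C := by
  obtain ⟨A, C, h1, h2, h3, h4⟩ := word_left u w x (Ne.symm hij) l hl hj hi
  refine ⟨A, C, h1, h2, h3, ?_⟩
  rw [← h4]
  congr 1
  refine List.map_congr_left fun k _ => ?_
  by_cases ha : k = i
  · subst ha
    rw [if_pos rfl, if_neg hij, if_pos rfl]
  · rw [if_neg ha, if_neg ha]

/-- PROOF. Induction on `l`: if the head is `i` or `j` use `word_right`, `word_left` for the tail (and `prs i j l = 0` if `i ∉ l` or `j ∉ l`: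
`j2_prs_zero_left`, `j2_prs_zero_right` in `G/J2.lean`, copy if not imported), otherwise the induction hypothesis. -/
theorem word_two {m : ℕ} {U : Type v} [Ring U] (u x w : U) {i j : Fin m} (hij : i ≠ j)
    (l : List (Fin m)) (hl : l.Nodup) (hi : i ∈ l) (hj : j ∈ l) :
    (prs i j l = 1 ∧ prs j i l = 0 ∧ ∃ A D C : ℕ, m ≤ A ∧ m ≤ D ∧ m ≤ C ∧
      A + D + C + 2 = 4 * m + l.length ∧
      (l.map fun k => if k = i then u ^ m * x * u ^ m else if k = j then u ^ m * w * u ^ m
        else u).prod = u ^ A * x * u ^ D * w * u ^ C) ∨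
    (prs i j l = 0 ∧ prs j i l = 1 ∧ ∃ A D C : ℕ, m ≤ A ∧ m ≤ D ∧ m ≤ C ∧
      A + D + C + 2 = 4 * m + l.length ∧
      (l.map fun k => if k = i then u ^ m * x * u ^ m else if k = j then u ^ m * w * u ^ m
        else u).prod = u ^ A * w * u ^ D * x * u ^ C) := by
  induction l with
  | nil => exact absurd hi (by simp)
  | cons k l ih =>
    obtain ⟨hk, hl'⟩ := List.nodup_cons.1 hl
    by_cases h : k = i
    · subst h
      have hj' : j ∈ l := (List.mem_cons.1 hj).resolve_left (fun e => hij e.symm)
      obtain ⟨A, C, h1, h2, h3, h4⟩ := word_right u x w hij l hl' hk hj'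
      left
      refine ⟨?_, ?_, m, m + A, C, le_rfl, Nat.le_add_right _ _, h2, ?_, ?_⟩
      · rw [prs, if_pos rfl, TwoA_prs_left hk, List.count_eq_one_of_mem hl' hj']
      · rw [prs, if_neg hij, TwoA_prs_right hk]
      · rw [List.length_cons]
        omega
      · rw [List.map_cons, List.prod_cons, h4, if_pos rfl, pow_add]
        simp only [mul_assoc]
    · by_cases h' : k = j
      · subst h'
        have hi' : i ∈ l := (List.mem_cons.1 hi).resolve_left hij
        obtain ⟨A, C, h1, h2, h3, h4⟩ := word_left u x w hij l hl' hi' hk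
        right
        refine ⟨?_, ?_, m, m + A, C, le_rfl, Nat.le_add_right _ _, h2, ?_, ?_⟩
        · rw [prs, if_neg h, TwoA_prs_right hk]
        · rw [prs, if_pos rfl, TwoA_prs_left hk, List.count_eq_one_of_mem hl' hi']
        · rw [List.length_cons]
          omega
        · rw [List.map_cons, List.prod_cons, h4, if_neg h, if_pos rfl, pow_add]
          simp only [mul_assoc]
      · have hi' : i ∈ l := (List.mem_cons.1 hi).resolve_left (fun e => h e.symm)
        have hj' : j ∈ l := (List.mem_cons.1 hj).resolve_left (fun e => h' e.symm)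
        rcases ih hl' hi' hj' with ⟨p1, p2, A, D, C, h1, h2, h3, h4, h5⟩ |
          ⟨p1, p2, A, D, C, h1, h2, h3, h4, h5⟩
        · left
          refine ⟨?_, ?_, A + 1, D, C, by omega, h2, h3, ?_, ?_⟩
          · rw [prs, if_neg h, p1]
          · rw [prs, if_neg h', p2]
          · rw [List.length_cons]
            omega
          · rw [List.map_cons, List.prod_cons, h5, if_neg h, if_neg h', pow_succ']
            simp only [mul_assoc]
        · right
          refine ⟨?_, ?_, A + 1, D, C, by omega, h2, h3, ?_, ?_⟩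
          · rw [prs, if_neg h, p1]
          · rw [prs, if_neg h', p2]
          · rw [List.length_cons]
            omega
          · rw [List.map_cons, List.prod_cons, h5, if_neg h, if_neg h', pow_succ']
            simp only [mul_assoc]

end Pool.Agent.H.MP_f5ceca_al.E
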