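import Pool.Agent.H.MP_f5ceca_al.E.Mid
import Pool.Agent.H.MP_f5ceca_al.E.TwoA

/-!
Job: the relation with two middle elements.
-/

namespace Pool.Agent.H.MP_f5ceca_al.E

open Pool.Agent.H.MP_f5ceca_al.G

universe u v w

variable {K : Type u} [Field K] {B : Type v} [Ring B] [Algebra K B]

/-- PROOF. Induction on `s`. -/
theorem move_one {m : ℕ} {z : B} (h : EOne K m z) (a x b : P2 B) (p q s : ℕ) (hp : m ≤ p)
    (hq : m ≤ q) : evz K z (a * uq z ^ (p + s) * x * uq z ^ q * b) =
      evz K z (a * uq z ^ p * x * uq z ^ (q + s) * b) := by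
  induction s generalizing q with
  | zero => rw [Nat.add_zero, Nat.add_zero]
  | succ s ih =>
    rw [← Nat.add_assoc, h a x b (p + s) q (Nat.le_add_right_of_le hp) hq,
      ih (q + 1) (Nat.le_succ_of_le hq)]
    have e : q + 1 + s = q + (s + 1) := by omega
    rw [e]

/-- Normal form of the exponents. -/
theorem Two_norm {m : ℕ} {z : B} (h : EOne K m z) (a x w b : P2 B) {p q r : ℕ}
    (hp : m ≤ p) (hq : m ≤ q) (hr : m ≤ r) :
    evz K z (a * uq z ^ p * x * uq z ^ q * w * uq z ^ r * b) =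
      evz K z (a * uq z ^ m * x * uq z ^ m * w * uq z ^ (p + q + r - 2 * m) * b) := by
  obtain ⟨p1, rfl⟩ := Nat.exists_eq_add_of_le hp
  obtain ⟨q1, rfl⟩ := Nat.exists_eq_add_of_le hq
  have h1 := move_one h a x (w * uq z ^ r * b) m (m + q1) p1 le_rfl hq
  have h2 := move_one h (a * uq z ^ m * x) w b m r (q1 + p1) le_rfl hr
  have e1 : a * uq z ^ (m + p1) * x * uq z ^ (m + q1) * w * uq z ^ r * b =
      a * uq z ^ (m + p1) * x * uq z ^ (m + q1) * (w * uq z ^ r * b) := by
    simp only [mul_assoc]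
  have e2 : a * uq z ^ m * x * uq z ^ (m + q1 + p1) * (w * uq z ^ r * b) =
      a * uq z ^ m * x * uq z ^ (m + (q1 + p1)) * w * uq z ^ r * b := by
    rw [add_assoc]
    simp only [mul_assoc]
  have e3 : m + p1 + (m + q1) + r - 2 * m = r + (q1 + p1) := by omega
  rw [e1, h1, e2, h2, e3]

/-- PROOF. Both sides are equal to the value for `(m, m, p + q + r - 2 m)`: `move_one` at `x` (with `b := w * u ^ r * b`) and at `w`
(with `a := a * u ^ p * x`). -/
theorem move_two {m : ℕ} {z : B} (h : EOne K m z) (a x w b : P2 B) {p q r p' q' r' : ℕ}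
    (hp : m ≤ p) (hq : m ≤ q) (hr : m ≤ r) (hp' : m ≤ p') (hq' : m ≤ q') (hr' : m ≤ r')
    (hs : p + q + r = p' + q' + r') :
    evz K z (a * uq z ^ p * x * uq z ^ q * w * uq z ^ r * b) =
      evz K z (a * uq z ^ p' * x * uq z ^ q' * w * uq z ^ r' * b) := by
  rw [Two_norm h a x w b hp hq hr, Two_norm h a x w b hp' hq' hr', hs]

/-- PROOF. `2 ≤ m` as `i ≠ j`. `mid` with `Y k = u^m x u^m` (`k = i`), `u^m w u^m` (`k = j`), `u` (otherwise), and `a` replaced by `a * u ^ (p + q + r - 5 m)`. By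
`word_two` the value for `l ∈ LL m` (`l.length = m`) is `V_xw` if `prs i j l = 1` and `V_wx` if `prs i j l = 0`, with exponents `≥ m` of sum `p + q + r`
(`A + D + C + 2 + (p + q + r - 5 m)`; the two new factors `u` on the outside and the factor in `a` increase the outer exponents), which by `move_two` is
the value `V_xw` (resp. `V_wx`) for the exponents `p, q, r`. So `∑ c l (prs i j l V_xw + (1 - prs i j l) V_wx) = κ (V_xw - V_wx) = 0`. -/
theorem two_final [CharZero K] {Y : Type} [DecidableEq Y] {P : Submodule K B}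
    (hP : ∀ a u b : B, u ∈ P → a * u * b ∈ P) {f : FreeAlgebra K Y}
    (hf : ∀ y : Y → B, (∀ x, y x ∈ P) → FreeAlgebra.lift K y f = 0) {z : B} (hz : z ∈ P) {m : ℕ}
    (t : Fin m → Y) (α β : Y) {i j : Fin m} (hij : i ≠ j) (h : EOne K m z)
    (h0 : ∑ l ∈ LL m, cf f (α :: (l.map t ++ [β])) = 0)
    (h1 : ∑ l ∈ LL m, cf f (α :: (l.map t ++ [β])) * (prs i j l : K) ≠ 0) : ETwo K m z := by
  intro a x w b p q r hp hq hr hpqr
  have hm : 1 ≤ m := by
    have := i.pos
    omega
  have hV : ∀ x w : P2 B, ∀ A D C : ℕ, m ≤ A → m ≤ D → m ≤ C → A + D + C + 2 = 5 * m →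
      evz K z (a * uq z ^ (p + q + r - 5 * m) * uq z * (uq z ^ A * x * uq z ^ D * w * uq z ^ C) *
        (uq z * b)) = evz K z (a * uq z ^ p * x * uq z ^ q * w * uq z ^ r * b) := by
    intro x w A D C hA hD hC hs
    have e : a * uq z ^ (p + q + r - 5 * m) * uq z *
        (uq z ^ A * x * uq z ^ D * w * uq z ^ C) * (uq z * b) =
        a * uq z ^ (p + q + r - 5 * m + 1 + A) * x * uq z ^ D * w * uq z ^ (C + 1) * b := by
      rw [pow_add, pow_succ, pow_succ]
      simp only [mul_assoc]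
    rw [e]
    exact move_two h a x w b (by omega) hD (by omega) hp hq hr (by omega)
  have hY1 : ∀ k : Fin m, ∃ y, (if k = i then uq z ^ m * x * uq z ^ m else
      if k = j then uq z ^ m * w * uq z ^ m else uq z) = uq z * y := by
    intro k
    obtain ⟨m', rfl⟩ := Nat.exists_eq_add_of_le' hm
    split_ifs
    · exact ⟨uq z ^ m' * x * uq z ^ (m' + 1), by rw [pow_succ']; simp only [mul_assoc]⟩
    · exact ⟨uq z ^ m' * w * uq z ^ (m' + 1), by rw [pow_succ']; simp only [mul_assoc]⟩
    · exact ⟨1, (mul_one _).symm⟩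
  have hY2 : ∀ k : Fin m, ∃ y, (if k = i then uq z ^ m * x * uq z ^ m else
      if k = j then uq z ^ m * w * uq z ^ m else uq z) = y * uq z := by
    intro k
    obtain ⟨m', rfl⟩ := Nat.exists_eq_add_of_le' hm
    split_ifs
    · exact ⟨uq z ^ (m' + 1) * x * uq z ^ m', by rw [pow_succ]; simp only [mul_assoc]⟩
    · exact ⟨uq z ^ (m' + 1) * w * uq z ^ m', by rw [pow_succ]; simp only [mul_assoc]⟩
    · exact ⟨1, (one_mul _).symm⟩
  have h2 := mid hP hf hz t α β (fun k => if k = i then uq z ^ m * x * uq z ^ m else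
      if k = j then uq z ^ m * w * uq z ^ m else uq z) hY1 hY2
      (a * uq z ^ (p + q + r - 5 * m)) b
  set V1 := evz K z (a * uq z ^ p * x * uq z ^ q * w * uq z ^ r * b) with hV1
  set V2 := evz K z (a * uq z ^ p * w * uq z ^ q * x * uq z ^ r * b) with hV2
  have h3 : ∀ l ∈ LL m, cf f (α :: (l.map t ++ [β])) •
      evz K z (a * uq z ^ (p + q + r - 5 * m) * uq z * (l.map fun k =>
        if k = i then uq z ^ m * x * uq z ^ m else
          if k = j then uq z ^ m * w * uq z ^ m else uq z).prod * (uq z * b)) =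
      cf f (α :: (l.map t ++ [β])) • V2 +
        (cf f (α :: (l.map t ++ [β])) * (prs i j l : K)) • (V1 - V2) := by
    intro l hl
    rcases word_two (uq z) x w hij l (nodup_of_mem_LL hl) (mem_of_mem_LL hl i)
      (mem_of_mem_LL hl j) with ⟨g1, -, A, D, C, hA, hD, hC, hs, g2⟩ |
        ⟨g1, -, A, D, C, hA, hD, hC, hs, g2⟩
    · rw [length_of_mem_LL hl] at hs
      rw [g2, g1, hV x w A D C hA hD hC (by omega), Nat.cast_one, mul_one, smul_sub,
        add_sub_cancel]
    · rw [length_of_mem_LL hl] at hs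
      rw [g2, g1, hV w x A D C hA hD hC (by omega), Nat.cast_zero, mul_zero, zero_smul, add_zero]
  rw [Finset.sum_congr rfl h3, Finset.sum_add_distrib, ← Finset.sum_smul, ← Finset.sum_smul, h0,
    zero_smul, zero_add] at h2
  have h4 := (smul_eq_zero.1 h2).resolve_left h1
  exact sub_eq_zero.1 h4

end Pool.Agent.H.MP_f5ceca_al.E
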