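import Pool.Agent.H.MP_f5ceca_al.E.Fib
import Pool.Agent.H.MP_f5ceca_al.E.OneB
import Pool.Agent.H.MP_f5ceca_al.E.OneC
import Pool.Agent.H.MP_f5ceca_al.E.Two

/-!
Job: the relations `EOne` and `ETwo` for every identity with `¬ WCond f`.
-/

namespace Pool.Agent.H.MP_f5ceca_al.E

open Pool.Agent.H.MP_f5ceca_al.G
open MvPolynomial (X)

universe u v w

theorem Core_zero {K : Type u} [Field K] {B : Type v} [Ring B] [Algebra K B] {z : B} {m : ℕ}
    (h : ∀ a b : P2 B, evz K z (a * uq z ^ m * b) = 0) : EOne K m z ∧ ETwo K m z := by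
  have h' : ∀ p, m ≤ p → ∀ a b : P2 B, evz K z (a * uq z ^ p * b) = 0 := by
    intro p hp a b
    have e1 : a * uq z ^ p * b = (a * uq z ^ (p - m)) * uq z ^ m * b := by
      rw [mul_assoc a (uq z ^ (p - m)), pow_sub_mul_pow (uq z) hp]
    rw [e1]
    exact h _ _
  refine ⟨?_, ?_⟩
  · intro a x b p q hp hq
    have e1 : a * uq z ^ (p + 1) * x * uq z ^ q * b = a * uq z ^ (p + 1) * (x * uq z ^ q * b) := by
      simp only [mul_assoc]
    have e2 : a * uq z ^ p * x * uq z ^ (q + 1) * b = a * uq z ^ p * (x * uq z ^ (q + 1) * b) := by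
      simp only [mul_assoc]
    rw [e1, e2, h' _ (by omega), h' _ hp]
  · intro a x w b p q r hp _ _ _
    have e1 : a * uq z ^ p * x * uq z ^ q * w * uq z ^ r * b =
        a * uq z ^ p * (x * uq z ^ q * w * uq z ^ r * b) := by
      simp only [mul_assoc]
    have e2 : a * uq z ^ p * w * uq z ^ q * x * uq z ^ r * b =
        a * uq z ^ p * (w * uq z ^ q * x * uq z ^ r * b) := by
      simp only [mul_assoc]
    rw [e1, e2, h' _ hp, h' _ hp]

theorem Core_prod {B : Type v} [Ring B] {m : ℕ} (u : B) (l : List (Fin m)) :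
    (l.map (fun _ => u)).prod = u ^ l.length := by
  rw [List.map_const', List.prod_replicate]

/-- PROOF. `exists_data`. `m` there is `m₀`.
If `cf f [] ≠ 0`: `m = 1`; `f` at `0` gives `cf f [] = 0` in `B` (`multi` with `ι = Empty`), so `B` is trivial.
If `cf f [x] ≠ 0`: `m = 1`; `multi` with `ι = Unit`, `y = z`, `γ = {()}` gives `z = 0`, so `uq z = 0` (`uq_zero`) and all values are `0`.
If the sum `σ ≠ 0`: `m = m₀ + 2`; `mid` with `Y k = u`: `evz (a u ^ (m₀ + 2) b) = 0` for all `a b`; so all values in `EOne`, `ETwo` are `0`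
(for `EOne` the exponents are at least `m₀ + 2`).
Otherwise `m = m₀` (`≥ 1`): `one_rel`, `one_ch`, `one_final`, `two_final`. -/
theorem core {K : Type u} [Field K] [CharZero K] {Y : Type} [DecidableEq Y] {f : FreeAlgebra K Y}
    (h : ¬ WCond f) : ∃ m : ℕ, 1 ≤ m ∧ ∀ {B : Type v} [Ring B] [Algebra K B]
      {P : Submodule K B} (_ : ∀ a u b : B, u ∈ P → a * u * b ∈ P)
      (_ : ∀ y : Y → B, (∀ x, y x ∈ P) → FreeAlgebra.lift K y f = 0) (z : B) (_ : z ∈ P),
      EOne K m z ∧ ETwo K m z := by
  rcases exists_data h with h0 | ⟨x, hx⟩ | ⟨m, t, α, β, hs | ⟨h0, i, j, hij, h1⟩⟩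
  · refine ⟨1, le_rfl, ?_⟩
    intro B _ _ P hP hf z hz
    have h2 := multi (Q := P) hf (ι := Empty) (fun k => k.elim) (fun k => k.elim)
      (fun k => k.elim) 0
    have h3 : (Multiset.lists (0 : Multiset Empty)).toFinset = {[]} := by
      ext l
      rw [Multiset.mem_toFinset, Multiset.mem_lists_iff, Finset.mem_singleton]
      constructor
      · intro h4
        exact (Multiset.coe_eq_zero l).1 h4.symm
      · rintro rfl
        rfl
    rw [h3, Finset.sum_singleton, List.map_nil, List.map_nil, List.prod_nil] at h2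
    have h4 : (1 : B) = 0 := (smul_eq_zero.1 h2).resolve_left h0
    apply Core_zero
    intro a b
    rw [← one_mul (evz K z _), h4, zero_mul]
  · refine ⟨1, le_rfl, ?_⟩
    intro B _ _ P hP hf z hz
    have h2 := multi (Q := P) hf (ι := Unit) (fun _ => x) (fun _ => z) (fun _ => hz) {()}
    have h3 : (Multiset.lists ({()} : Multiset Unit)).toFinset = {[()]} := by
      ext l
      rw [Multiset.mem_toFinset, Multiset.mem_lists_iff, Finset.mem_singleton]
      constructor
      · intro h4
        exact Multiset.coe_eq_singleton.1 h4.symm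
      · rintro rfl
        rfl
    rw [h3, Finset.sum_singleton, List.map_singleton, List.map_singleton,
      List.prod_singleton] at h2
    have h4 : z = 0 := (smul_eq_zero.1 h2).resolve_left hx
    subst h4
    apply Core_zero
    intro a b
    rw [uq_zero, pow_one, mul_zero, zero_mul, map_zero]
  · refine ⟨m + 2, by omega, ?_⟩
    intro B _ _ P hP hf z hz
    apply Core_zero
    intro a b
    have h2 := mid hP hf hz t α β (fun _ => uq z) (fun _ => ⟨1, (mul_one _).symm⟩)
      (fun _ => ⟨1, (one_mul _).symm⟩) a b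
    have h3 : ∀ l ∈ LL m, cf f (α :: (l.map t ++ [β])) •
        evz K z (a * uq z * (l.map fun _ => uq z).prod * (uq z * b)) =
        cf f (α :: (l.map t ++ [β])) • evz K z (a * uq z ^ (m + 2) * b) := by
      intro l hl
      rw [Core_prod, length_of_mem_LL hl]
      congr 2
      rw [pow_succ, pow_succ']
      simp only [mul_assoc]
    rw [Finset.sum_congr rfl h3, ← Finset.sum_smul] at h2
    exact (smul_eq_zero.1 h2).resolve_left hs
  · refine ⟨m, by have := i.2; omega, ?_⟩
    intro B _ _ P hP hf z hz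
    have h2 := one_ch (z := z) (fun l => cf f (α :: (l.map t ++ [β]))) hij
      (fun n hn => one_rel hP hf hz t α β i n hn)
    have h3 := one_final _ hij h0 h1 h2
    exact ⟨h3, two_final hP hf hz t α β hij h3 h0 h1⟩

end Pool.Agent.H.MP_f5ceca_al.E
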