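import Pool.Agent.H.MP_f5ceca_al.G.J1
import Pool.Agent.H.MP_f5ceca_al.BR.Ann

/-!
Block E: the relations (ER) and (E2') for every variety which does not contain `W`.

Definitions. `LL m` are the words in `Fin m` in which every letter occurs exactly once;
`uq z = z (z - l) (z - r)`; `PP P` are the elements of `P2 B` with all coefficients in `P`.
-/

namespace Pool.Agent.H.MP_f5ceca_al.E

open Pool.Agent.H.MP_f5ceca_al.G

universe u v w

/-- The words in `Fin m` in which every letter occurs exactly once. -/
def LL (m : ℕ) : Finset (List (Fin m)) := (Finset.univ : Finset (Fin m)).val.lists.toFinset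

theorem mem_LL {m : ℕ} {l : List (Fin m)} :
    l ∈ LL m ↔ (l : Multiset (Fin m)) = (Finset.univ : Finset (Fin m)).val := by
  unfold LL
  rw [Multiset.mem_toFinset, Multiset.mem_lists_iff]
  exact eq_comm

theorem nodup_of_mem_LL {m : ℕ} {l : List (Fin m)} (h : l ∈ LL m) : l.Nodup := by
  rw [← Multiset.coe_nodup, mem_LL.1 h]
  exact Finset.univ.nodup

theorem mem_of_mem_LL {m : ℕ} {l : List (Fin m)} (h : l ∈ LL m) (k : Fin m) : k ∈ l := by
  rw [← Multiset.mem_coe, mem_LL.1 h]
  exact Finset.mem_univ k

theorem length_of_mem_LL {m : ℕ} {l : List (Fin m)} (h : l ∈ LL m) : l.length = m := by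
  have h1 := congrArg Multiset.card (mem_LL.1 h)
  rw [Multiset.coe_card] at h1
  rw [h1]
  simp

section
variable {B : Type v} [Ring B]

/-- The element `z (z - l) (z - r)`. -/
noncomputable def uq (z : B) : P2 B := em z * (em z - lv B) * (em z - rv B)

theorem qq_eq (M : ℕ) (z : B) : qq M z = uq z ^ M := rfl

theorem uq_zero : uq (0 : B) = 0 := by
  unfold uq
  rw [map_zero, zero_mul, zero_mul]

variable {K : Type u} [Field K] [Algebra K B]

/-- The elements of `P2 B` with all coefficients in `P`. -/
def PP (P : Submodule K B) : Submodule K (P2 B) where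
  carrier := {Q | ∀ p s, (Q.coeff s).coeff p ∈ P}
  add_mem' := fun {x y} hx hy p s => by
    rw [Polynomial.coeff_add, Polynomial.coeff_add]
    exact P.add_mem (hx p s) (hy p s)
  zero_mem' := fun p s => by
    rw [Polynomial.coeff_zero, Polynomial.coeff_zero]
    exact P.zero_mem
  smul_mem' := fun c x hx p s => by
    rw [Polynomial.coeff_smul, Polynomial.coeff_smul]
    exact P.smul_mem c (hx p s)

theorem mem_PP {P : Submodule K B} {Q : P2 B} : Q ∈ PP P ↔ ∀ p s, (Q.coeff s).coeff p ∈ P :=
  Iff.rfl

variable (K) in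
/-- Exponents of `u` larger than `m` can be moved over one middle element. -/
def EOne (m : ℕ) (z : B) : Prop :=
  ∀ (a x b : P2 B) (p q : ℕ), m ≤ p → m ≤ q →
    evz K z (a * uq z ^ (p + 1) * x * uq z ^ q * b) =
      evz K z (a * uq z ^ p * x * uq z ^ (q + 1) * b)

variable (K) in
/-- Middle elements commute if the exponents of `u` are large. -/
def ETwo (m : ℕ) (z : B) : Prop :=
  ∀ (a x w b : P2 B) (p q r : ℕ), m ≤ p → m ≤ q → m ≤ r → 5 * m ≤ p + q + r →
    evz K z (a * uq z ^ p * x * uq z ^ q * w * uq z ^ r * b) =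
      evz K z (a * uq z ^ p * w * uq z ^ q * x * uq z ^ r * b)

end

end Pool.Agent.H.MP_f5ceca_al.E
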