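import Pool.Agent.H.MP_f5ceca_al.E.FibA

/-!
Job: the data obtained from an `f` with `¬ WCond f`.
-/

namespace Pool.Agent.H.MP_f5ceca_al.E

open Pool.Agent.H.MP_f5ceca_al.G

universe u v w

variable {K : Type u} [Field K] {X : Type} [DecidableEq X]

omit [DecidableEq X] in
theorem count_map {ι : Type} [Fintype ι] [DecidableEq ι] [DecidableEq X] (t : ι → X) (j : X)
    (l : List ι) : (l.map t).count j = ∑ k ∈ Finset.univ.filter (fun k => t k = j), l.count k := by
  induction l with
  | nil => simp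
  | cons a l ih =>
    rw [List.map_cons, List.count_cons, ih]
    have h1 : ∀ k : ι, (a :: l).count k = l.count k + if a = k then 1 else 0 := by
      intro k
      rw [List.count_cons]
      by_cases hk : a = k
      · simp [hk]
      · simp [hk]
    rw [Finset.sum_congr rfl fun k _ => h1 k, Finset.sum_add_distrib, Finset.sum_ite_eq]
    congr 1
    by_cases hj : t a = j
    · simp [hj]
    · simp [hj]

/-- PROOF. Induction on `l`, with `count_map`. -/
theorem prs_map {ι : Type} [Fintype ι] [DecidableEq ι] (t : ι → X) (i j : X) (l : List ι) :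
    prs i j (l.map t) = ∑ p ∈ Finset.univ.filter (fun p : ι × ι => t p.1 = i ∧ t p.2 = j),
      prs p.1 p.2 l := by
  have hset : (Finset.univ.filter (fun p : ι × ι => t p.1 = i ∧ t p.2 = j)) =
      (Finset.univ.filter (fun k : ι => t k = i)) ×ˢ (Finset.univ.filter (fun k : ι => t k = j)) := by
    ext p
    simp
  induction l with
  | nil => simp [prs]
  | cons a l ih =>
    have h1 : prs i j ((a :: l).map t) =
        (if t a = i then (l.map t).count j else 0) + prs i j (l.map t) := rfl
    have h2 : ∀ p : ι × ι, prs p.1 p.2 (a :: l) =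
        (if a = p.1 then l.count p.2 else 0) + prs p.1 p.2 l := fun p => rfl
    rw [h1, ih, Finset.sum_congr rfl fun p _ => h2 p, Finset.sum_add_distrib]
    congr 1
    rw [hset, Finset.sum_product]
    have h3 : ∀ x : ι, (∑ y ∈ Finset.univ.filter (fun k : ι => t k = j),
        (if a = x then l.count y else 0)) =
        if a = x then ∑ y ∈ Finset.univ.filter (fun k : ι => t k = j), l.count y else 0 := by
      intro x
      by_cases hx : a = x
      · simp [hx]
      · simp [hx]
    rw [Finset.sum_congr rfl fun x _ => h3 x, Finset.sum_ite_eq, count_map t j l]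
    by_cases hi : t a = i
    · simp [hi]
    · simp [hi]

/-- PROOF. If (c0) and (c1) of `WCond` hold then (c2) or (c3) fails, for some `α β γ` (`i ≠ j`). Let `t : Fin m → X` with
`List.ofFn t = γ.toList` (`List.ofFn_get`). If (c2) fails use `fib_sum` with `F w = cf f (α :: (w ++ [β]))`. If (c3) fails and the sum
`∑_{l ∈ LL m} cf f (α :: (l.map t ++ [β]))` is `0`, use `fib_sum` with `F w = cf f (α :: (w ++ [β])) * prs i j w` and `prs_map`:
`∑_p ∑_l cf f (..) * prs p.1 p.2 l ≠ 0`, so one of the terms is not zero. -/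
theorem exists_data [CharZero K] {f : FreeAlgebra K X} (h : ¬ WCond f) :
    cf f [] ≠ 0 ∨ (∃ x, cf f [x] ≠ 0) ∨ ∃ (m : ℕ) (t : Fin m → X) (α β : X),
      (∑ l ∈ LL m, cf f (α :: (l.map t ++ [β])) ≠ 0) ∨
      (∑ l ∈ LL m, cf f (α :: (l.map t ++ [β])) = 0 ∧ ∃ i j : Fin m, i ≠ j ∧
        ∑ l ∈ LL m, cf f (α :: (l.map t ++ [β])) * (prs i j l : K) ≠ 0) := by
  by_cases h0 : cf f [] = 0
  swap
  · exact Or.inl h0
  by_cases h1 : ∃ x, cf f [x] ≠ 0
  · exact Or.inr (Or.inl h1)
  refine Or.inr (Or.inr ?_)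
  by_contra hcon
  have hz : ∀ (m : ℕ) (t : Fin m → X) (α β : X),
      ∑ l ∈ LL m, cf f (α :: (l.map t ++ [β])) = 0 := by
    intro m t α β
    by_contra hne
    exact hcon ⟨m, t, α, β, Or.inl hne⟩
  have hp : ∀ (m : ℕ) (t : Fin m → X) (α β : X) (i j : Fin m), i ≠ j →
      ∑ l ∈ LL m, cf f (α :: (l.map t ++ [β])) * (prs i j l : K) = 0 := by
    intro m t α β i j hij
    by_contra hne
    exact hcon ⟨m, t, α, β, Or.inr ⟨hz m t α β, i, j, hij, hne⟩⟩
  have hof : ∀ γ : Multiset X, ∃ (m : ℕ) (t : Fin m → X), ((List.ofFn t : List X) : Multiset X) = γ := by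
    intro γ
    refine ⟨γ.toList.length, fun k => γ.toList.get k, ?_⟩
    have h2 : List.ofFn (fun k => γ.toList.get k) = γ.toList := List.ofFn_get γ.toList
    rw [h2]
    exact Multiset.coe_toList γ
  apply h
  refine ⟨h0, fun x => ?_, ?_, ?_⟩
  · by_contra hx
    exact h1 ⟨x, hx⟩
  · intro α β γ
    obtain ⟨m, t, ht⟩ := hof γ
    obtain ⟨N, hN, hF⟩ := fib_sum (K := K) t
    have h3 := hF (fun w => cf f (α :: (w ++ [β])))
    rw [ht] at h3
    have h4 : ∑ l ∈ LL m, (fun w => cf f (α :: (w ++ [β]))) (l.map t) = 0 := hz m t α β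
    rw [h4] at h3
    rcases mul_eq_zero.1 h3.symm with h5 | h5
    · exact absurd h5 (by exact_mod_cast hN.ne')
    · exact h5
  · intro α β γ i j hij
    obtain ⟨m, t, ht⟩ := hof γ
    obtain ⟨N, hN, hF⟩ := fib_sum (K := K) t
    have h3 := hF (fun w => cf f (α :: (w ++ [β])) * (prs i j w : K))
    rw [ht] at h3
    have h4 : ∑ l ∈ LL m, (fun w => cf f (α :: (w ++ [β])) * (prs i j w : K)) (l.map t) = 0 := by
      have h6 : ∀ l : List (Fin m), (fun w => cf f (α :: (w ++ [β])) * (prs i j w : K)) (l.map t) =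
          ∑ p ∈ Finset.univ.filter (fun p : Fin m × Fin m => t p.1 = i ∧ t p.2 = j),
            cf f (α :: (l.map t ++ [β])) * (prs p.1 p.2 l : K) := by
        intro l
        show cf f (α :: (l.map t ++ [β])) * (prs i j (l.map t) : K) = _
        rw [prs_map t i j l, Nat.cast_sum, Finset.mul_sum]
      rw [Finset.sum_congr rfl fun l _ => h6 l, Finset.sum_comm]
      refine Finset.sum_eq_zero fun p hpm => ?_
      rw [Finset.mem_filter] at hpm
      refine hp m t α β p.1 p.2 ?_
      intro he
      apply hij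
      rw [← hpm.2.1, ← hpm.2.2, he]
    rw [h4] at h3
    rcases mul_eq_zero.1 h3.symm with h5 | h5
    · exact absurd h5 (by exact_mod_cast hN.ne')
    · exact h5

end Pool.Agent.H.MP_f5ceca_al.E
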