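import Pool.Agent.H.MP_f5ceca_al.E.Defs

/-!
Job: words with repeated letters and multilinear words.
-/

namespace Pool.Agent.H.MP_f5ceca_al.E

open Pool.Agent.H.MP_f5ceca_al.G

universe u v w

variable {K : Type u} [Field K] {X : Type} [DecidableEq X]

theorem FibA_perm_map {α : Type*} {β : Type*} (t : α → β) {w w' : List β} (h : w.Perm w') :
    ∀ l' : List α, l'.map t = w' → ∃ l : List α, l.Perm l' ∧ l.map t = w := by
  induction h with
  | nil =>
    intro l' hl'
    exact ⟨l', List.Perm.refl _, hl'⟩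
  | cons x _ ih =>
    intro l' hl'
    cases l' with
    | nil => simp at hl'
    | cons a l' =>
      rw [List.map_cons, List.cons.injEq] at hl'
      obtain ⟨l, hl, hm⟩ := ih l' hl'.2
      refine ⟨a :: l, hl.cons a, ?_⟩
      rw [List.map_cons, hm, hl'.1]
  | swap x y w =>
    intro l' hl'
    match l', hl' with
    | a :: b :: l', hl' =>
      rw [List.map_cons, List.map_cons, List.cons.injEq, List.cons.injEq] at hl'
      refine ⟨b :: a :: l', List.Perm.swap a b l', ?_⟩
      rw [List.map_cons, List.map_cons, hl'.1, hl'.2.1, hl'.2.2]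
  | trans _ _ ih1 ih2 =>
    intro l' hl'
    obtain ⟨l1, h1, hm1⟩ := ih2 l' hl'
    obtain ⟨l2, h2, hm2⟩ := ih1 l1 hm1
    exact ⟨l2, h2.trans h1, hm2⟩

theorem FibA_ofFn_mem {m : ℕ} (σ : Equiv.Perm (Fin m)) : List.ofFn σ ∈ LL m := by
  rw [mem_LL, ← Fin.univ_val_map]
  exact Multiset.map_univ_val_equiv σ

theorem FibA_ofFn_surj {m : ℕ} {l : List (Fin m)} (h : l ∈ LL m) :
    ∃ σ : Equiv.Perm (Fin m), List.ofFn σ = l := by
  have hlen := length_of_mem_LL h
  have hnd := nodup_of_mem_LL h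
  have hof : List.ofFn (fun i : Fin m => l.get (i.cast hlen.symm)) = l := by
    apply List.ext_getElem
    · simp [hlen]
    · intro i h1 h2
      simp
  have hinj : Function.Injective (fun i : Fin m => l.get (i.cast hlen.symm)) := by
    intro i j hij
    have h1 := (List.Nodup.get_inj_iff hnd).1 hij
    exact Fin.cast_injective _ h1
  exact ⟨Equiv.ofBijective _ (Finite.injective_iff_bijective.1 hinj), hof⟩

theorem FibA_LL (m : ℕ) :
    LL m = Finset.univ.image (fun σ : Equiv.Perm (Fin m) => List.ofFn σ) := by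
  ext l
  rw [Finset.mem_image]
  constructor
  · intro h
    obtain ⟨σ, hσ⟩ := FibA_ofFn_surj h
    exact ⟨σ, Finset.mem_univ _, hσ⟩
  · rintro ⟨σ, -, rfl⟩
    exact FibA_ofFn_mem σ

theorem FibA_inj (m : ℕ) :
    Function.Injective (fun σ : Equiv.Perm (Fin m) => List.ofFn σ) := by
  intro σ τ h
  exact DFunLike.coe_injective (List.ofFn_injective h)

theorem FibA_maps {m : ℕ} (t : Fin m → X) (σ : Equiv.Perm (Fin m)) :
    (List.ofFn σ).map t ∈ ((List.ofFn t : List X) : Multiset X).lists.toFinset := by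
  rw [Multiset.mem_toFinset, Multiset.mem_lists_iff]
  change ((List.ofFn t : List X) : Multiset X) = (((List.ofFn σ).map t : List X) : Multiset X)
  rw [← Multiset.map_coe, mem_LL.1 (FibA_ofFn_mem σ), ← Fin.univ_val_map]

theorem FibA_surj {m : ℕ} (t : Fin m → X) {w : List X}
    (hw : w ∈ ((List.ofFn t : List X) : Multiset X).lists.toFinset) :
    ∃ σ : Equiv.Perm (Fin m), (List.ofFn σ).map t = w := by
  rw [Multiset.mem_toFinset, Multiset.mem_lists_iff] at hw
  replace hw : (List.ofFn t).Perm w := Multiset.coe_eq_coe.1 hw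
  have h1 : (List.ofFn (fun i : Fin m => i)).map t = List.ofFn t := by
    rw [List.map_ofFn]
    rfl
  obtain ⟨l, hl, hm⟩ := FibA_perm_map t hw.symm _ h1
  have h2 : l ∈ LL m := by
    rw [mem_LL, Multiset.coe_eq_coe.2 hl]
    exact mem_LL.1 (FibA_ofFn_mem (1 : Equiv.Perm (Fin m)))
  obtain ⟨σ, hσ⟩ := FibA_ofFn_surj h2
  exact ⟨σ, by rw [hσ, hm]⟩

theorem FibA_card {m : ℕ} (t : Fin m → X) (ρ : Equiv.Perm (Fin m)) :
    (Finset.univ.filter fun σ : Equiv.Perm (Fin m) =>
      (List.ofFn σ).map t = (List.ofFn ρ).map t).card =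
    (Finset.univ.filter fun σ : Equiv.Perm (Fin m) => t ∘ σ = t).card := by
  refine Finset.card_equiv (Equiv.mulRight ρ⁻¹) fun σ => ?_
  rw [Finset.mem_filter, Finset.mem_filter, List.map_ofFn, List.map_ofFn]
  simp only [Finset.mem_univ, true_and, Equiv.coe_mulRight]
  constructor
  · intro h
    have h1 := List.ofFn_injective h
    funext i
    have h2 := congrFun h1 (ρ⁻¹ i)
    simpa using h2
  · intro h
    congr 1
    funext i
    have h2 := congrFun h (ρ i)
    simpa using h2

/-- PROOF. `l ↦ l.map t` maps `LL m` onto the words with the same content as `List.ofFn t`; all fibres have the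
same number of elements: words in `LL m` are `List.ofFn ρ`, `ρ : Equiv.Perm (Fin m)`, and `(List.ofFn ρ).map t = List.ofFn (t ∘ ρ)`;
if `w = List.ofFn (t ∘ ρ₀)`, then `{ρ | t ∘ ρ = t ∘ ρ₀} = {σ ρ₀ | t ∘ σ = t}` has `N = #{σ | t ∘ σ = t} > 0` elements
(`Finset.sum_comp` or `Finset.sum_fiberwise_of_maps_to`). That every word with the content of `List.ofFn t` is some
`List.ofFn (t ∘ ρ)`: induction on `List.Perm` (for lists `w ~ w'`: every `t'` with `w' = List.ofFn t'`, `t' : Fin w'.length → X`, ...),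
or without permutations, by induction on `m` resp. on a multiset `Γ` without repetitions: with
`S(Γ, F) = ∑_{l ∈ Γ.lists} F (l.map t)` and `N(γ) = ∏_x (count x γ)!` show
`S(Γ, F) = N(Γ.map t) * ∑_{w ∈ (Γ.map t).lists} F w`, splitting off the first letter. -/
theorem fib_sum [CharZero K] {m : ℕ} (t : Fin m → X) : ∃ N : ℕ, 0 < N ∧ ∀ F : List X → K,
    ∑ l ∈ LL m, F (l.map t) =
      (N : K) * ∑ w ∈ ((List.ofFn t : List X) : Multiset X).lists.toFinset, F w := by
  refine ⟨(Finset.univ.filter fun σ : Equiv.Perm (Fin m) => t ∘ σ = t).card,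
    Finset.card_pos.2 ⟨1, by simp⟩, fun F => ?_⟩
  rw [FibA_LL, Finset.sum_image (fun _ _ _ _ h => FibA_inj m h),
    ← Finset.sum_fiberwise_of_maps_to' (g := fun σ : Equiv.Perm (Fin m) => (List.ofFn σ).map t)
      (fun σ _ => FibA_maps t σ) F, Finset.mul_sum]
  refine Finset.sum_congr rfl fun w hw => ?_
  obtain ⟨ρ, rfl⟩ := FibA_surj t hw
  rw [Finset.sum_const, FibA_card, nsmul_eq_mul]

end Pool.Agent.H.MP_f5ceca_al.E
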