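import Pool.Agent.H.MP_f5ceca_al.E.Core
import Pool.Agent.H.MP_f5ceca_al.E.ConvE
import Pool.Agent.H.MP_f5ceca_al.G.J4

/-!
Block E, final statements: (ER) and (E2') for every set of identities `S` with `¬ IncludesW S`.
-/

namespace Pool.Agent.H.MP_f5ceca_al.E

open Pool.Agent.H.MP_f5ceca_al.G
open MvPolynomial (X)

universe u v w

theorem FinalE_ex {K : Type u} [Field K] [CharZero K] {S : Set (FreeAlgebra K ℕ)}
    (hS : ¬ IncludesW S) : ∃ f ∈ S, ¬ WCond f := by
  by_contra h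
  apply hS
  apply includesW_of_wcond
  intro f hf
  by_contra hW
  exact h ⟨f, hf, hW⟩

theorem FinalE_three {K : Type u} [Field K] {B : Type v} [Ring B] [Algebra K B] {m M : ℕ} {z : B}
    (h1 : EOne K m z) (h2 : ETwo K m z) (hM : 2 * m ≤ M) (A b : P2 B) (x : B) :
    evz K z (A * uq z ^ (2 * M) * em (x * z - z * x) * uq z ^ M * b) = 0 := by
  have hc : Commute (uq z) (em z) := uq_comm_em z
  have hcm : uq z ^ m * em z = em z * uq z ^ m := (hc.pow_left m).eq
  have e1 := h2 A (em x) (em z) b (2 * M) m (M - m) (by omega) le_rfl (by omega) (by omega)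
  have e2 := move_one h1 A (em z * em x) b (2 * M) (M - m) m (by omega) (by omega)
  have hMm : M - m + m = M := by omega
  rw [hMm] at e2
  have e3 : A * uq z ^ (2 * M) * em x * uq z ^ m * em z * uq z ^ (M - m) * b =
      A * uq z ^ (2 * M) * (em x * em z) * uq z ^ M * b := by
    have e4 : uq z ^ M = uq z ^ m * uq z ^ (M - m) := by
      rw [← pow_add]
      congr 1
      omega
    rw [e4]
    calc A * uq z ^ (2 * M) * em x * uq z ^ m * em z * uq z ^ (M - m) * b
        = A * uq z ^ (2 * M) * em x * (uq z ^ m * em z) * uq z ^ (M - m) * b := by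
          simp only [mul_assoc]
      _ = A * uq z ^ (2 * M) * (em x * em z) * (uq z ^ m * uq z ^ (M - m)) * b := by
          rw [hcm]
          simp only [mul_assoc]
  have e5 : A * uq z ^ (2 * M) * em z * uq z ^ m * em x * uq z ^ (M - m) * b =
      A * uq z ^ (2 * M + m) * (em z * em x) * uq z ^ (M - m) * b := by
    rw [pow_add]
    calc A * uq z ^ (2 * M) * em z * uq z ^ m * em x * uq z ^ (M - m) * b
        = A * uq z ^ (2 * M) * (em z * uq z ^ m) * em x * uq z ^ (M - m) * b := by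
          simp only [mul_assoc]
      _ = A * (uq z ^ (2 * M) * uq z ^ m) * (em z * em x) * uq z ^ (M - m) * b := by
          rw [← hcm]
          simp only [mul_assoc]
  rw [e3, e5, e2] at e1
  have e7 : em (x * z - z * x) = em x * em z - em z * em x := by
    rw [map_sub, map_mul, map_mul]
  rw [e7]
  have e6 : A * uq z ^ (2 * M) * (em x * em z - em z * em x) * uq z ^ M * b =
      A * uq z ^ (2 * M) * (em x * em z) * uq z ^ M * b -
        A * uq z ^ (2 * M) * (em z * em x) * uq z ^ M * b := by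
    rw [mul_sub, sub_mul, sub_mul]
  rw [e6, map_sub, e1, sub_self]

/-- (ER). PROOF. `includesW_of_wcond`: some `f ∈ S` has `¬ WCond f`; `core`, `M₀ = 2 m`, `conv_four`, `ETwo` with exponents `M, M, M`. -/
theorem ER {K : Type u} [Field K] [CharZero K] {S : Set (FreeAlgebra K ℕ)}
    (hS : ¬ IncludesW S) : ∃ M₀ : ℕ, ∀ M, M₀ ≤ M → ∀ {B : Type v} [Ring B] [Algebra K B]
      {P : Submodule K B} (_ : ∀ a u b : B, u ∈ P → a * u * b ∈ P)
      (_ : ∀ f ∈ S, ∀ y : ℕ → B, (∀ x, y x ∈ P) → FreeAlgebra.lift K y f = 0) (z : B)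
      (_ : z ∈ P) (a x w b : B),
      BR.sev (K := K) z ![a, x, w, b]
        ((X 1 * (X 1 - X 0) * (X 1 - X 4) * (X 2 * (X 2 - X 0) * (X 2 - X 4)) *
          (X 3 * (X 3 - X 0) * (X 3 - X 4))) ^ M) =
      BR.sev (K := K) z ![a, w, x, b]
        ((X 1 * (X 1 - X 0) * (X 1 - X 4) * (X 2 * (X 2 - X 0) * (X 2 - X 4)) *
          (X 3 * (X 3 - X 0) * (X 3 - X 4))) ^ M) := by
  obtain ⟨f, hf, hW⟩ := FinalE_ex hS
  obtain ⟨m, hm, hcore⟩ := core.{u, v} hW
  refine ⟨2 * m, fun M hM => ?_⟩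
  intro B _ _ P hP hvan z hz a x w b
  have h2 := (hcore hP (fun y hy => hvan f hf y hy) z hz).2
  rw [conv_four, conv_four]
  exact h2 (em a) (em x) (em w) (em b) M M M (by omega) (by omega) (by omega) (by omega)

/-- (E2'). PROOF. `core`, `M₀ = 2 m`, `conv_three`: the value is
`evz (A u^(2M) (em x em z - em z em x) u^M b)`, `A = em (a z)`. `ETwo` with `w = em z` and exponents `2M, m, M - m`:
`evz (A u^(2M) x u^m z u^(M-m) b) = evz (A u^(2M) z u^m x u^(M-m) b)`; `em z` commutes with `u` (`uq_comm_em`), so the left side is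
`evz (A u^(2M) (x z) u^M b)` and the right side is `evz (A u^(2M+m) (z x) u^(M-m) b) = evz (A u^(2M) (z x) u^M b)` by `move_one`. -/
theorem E2 {K : Type u} [Field K] [CharZero K] {S : Set (FreeAlgebra K ℕ)}
    (hS : ¬ IncludesW S) : ∃ M₀ : ℕ, ∀ M, M₀ ≤ M → ∀ {B : Type v} [Ring B] [Algebra K B]
      {P : Submodule K B} (_ : ∀ a u b : B, u ∈ P → a * u * b ∈ P)
      (_ : ∀ f ∈ S, ∀ y : ℕ → B, (∀ x, y x ∈ P) → FreeAlgebra.lift K y f = 0) (z : B)
      (_ : z ∈ P) (a x b : B),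
      BR.sev (K := K) z ![a, x, b]
        ((X 2 - X 1) * X 1 * ((X 1 * (X 1 - X 0) * (X 1 - X 3)) ^ 2 *
          (X 2 * (X 2 - X 0) * (X 2 - X 3))) ^ M) = 0 := by
  obtain ⟨f, hf, hW⟩ := FinalE_ex hS
  obtain ⟨m, hm, hcore⟩ := core.{u, v} hW
  refine ⟨2 * m, fun M hM => ?_⟩
  intro B _ _ P hP hvan z hz a x b
  have h2 := hcore hP (fun y hy => hvan f hf y hy) z hz
  rw [conv_three]
  exact FinalE_three h2.1 h2.2 hM _ _ _

end Pool.Agent.H.MP_f5ceca_al.E
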