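import Pool.Agent.H.MP_f5ceca_al.E.FinalE
import Pool.Agent.H.MP_f5ceca_al.BR.Defs

/-!
The form of (ER) used by block BR, for one identity `f` with `¬ WCond f`.
-/

namespace Pool.Agent.H.MP_f5ceca_al.E

open Pool.Agent.H.MP_f5ceca_al.G

universe u

/-- (ER) for one identity. -/
theorem eblock_one {K : Type u} [Field K] [CharZero K] {f : FreeAlgebra K ℕ}
    (h : ¬ WCond f) : ∃ M : ℕ, 1 ≤ M ∧ BR.EBlock ({f} : Set (FreeAlgebra K ℕ)) M := by
  obtain ⟨m, hm, hcore⟩ := core.{u, u} h
  refine ⟨2 * m, by omega, ⟨?_⟩⟩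
  intro B _ _ P hP hH M' hM' z hz x _ w _ a _ b _
  have h2 := (hcore (P := P) (fun a u b hu => hP.right b _ (hP.left a u hu))
    (fun y hy => hH f rfl y hy) z hz).2
  have e1 : ∀ x w : B, BR.sev (K := K) z ![a, x, w, b] (BR.polU K M') = _ :=
    fun x w => conv_four z a x w b M'
  rw [e1, e1]
  exact h2 (em a) (em x) (em w) (em b) M' M' M' (by omega) (by omega) (by omega) (by omega)

/-- A set of identities which does not define a variety containing `W` contains an `f` with
`¬ WCond f`. -/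
theorem exists_not_wcond {K : Type u} [Field K] [CharZero K] {S : Set (FreeAlgebra K ℕ)}
    (hS : ¬ IncludesW S) : ∃ f ∈ S, ¬ WCond f := FinalE_ex hS

end Pool.Agent.H.MP_f5ceca_al.E
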