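import Pool.Agent.H.MP_f5ceca_al.E.Defs

/-!
Job: the ideal `PP P` of `P2 B`; `evz` kills words which begin or end with `uq z`.
-/

namespace Pool.Agent.H.MP_f5ceca_al.E

open Pool.Agent.H.MP_f5ceca_al.G

universe u v w

variable {K : Type u} [Field K] {B : Type v} [Ring B] [Algebra K B]

/-- PROOF. `Polynomial.coeff_mul` twice. -/
theorem PP_left {P : Submodule K B} (hP : ∀ a u b : B, u ∈ P → a * u * b ∈ P) (a : P2 B)
    {x : P2 B} (hx : x ∈ PP P) : a * x ∈ PP P := by
  intro p s
  rw [Polynomial.coeff_mul, Polynomial.finsetSum_coeff]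
  refine P.sum_mem fun i _ => ?_
  rw [Polynomial.coeff_mul]
  refine P.sum_mem fun j _ => ?_
  have h := hP ((a.coeff i.1).coeff j.1) _ 1 (hx j.2 i.2)
  rwa [mul_one] at h

theorem PP_right {P : Submodule K B} (hP : ∀ a u b : B, u ∈ P → a * u * b ∈ P) {x : P2 B}
    (hx : x ∈ PP P) (b : P2 B) : x * b ∈ PP P := by
  intro p s
  rw [Polynomial.coeff_mul, Polynomial.finsetSum_coeff]
  refine P.sum_mem fun i _ => ?_
  rw [Polynomial.coeff_mul]
  refine P.sum_mem fun j _ => ?_
  have h := hP 1 _ ((b.coeff i.2).coeff j.2) (hx j.1 i.1)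
  rwa [one_mul] at h

theorem em_mem_PP {P : Submodule K B} {a : B} (ha : a ∈ P) : em a ∈ PP P := by
  intro p s
  have h : (em a : P2 B) = Polynomial.C (Polynomial.C a) := rfl
  rw [h, Polynomial.coeff_C]
  by_cases hs : s = 0
  · rw [if_pos hs, Polynomial.coeff_C]
    by_cases hp : p = 0
    · rw [if_pos hp]
      exact ha
    · rw [if_neg hp]
      exact P.zero_mem
  · rw [if_neg hs, Polynomial.coeff_zero]
    exact P.zero_mem

theorem uq_mem_PP {P : Submodule K B} (hP : ∀ a u b : B, u ∈ P → a * u * b ∈ P) {z : B}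
    (hz : z ∈ P) : uq z ∈ PP P := by
  unfold uq
  exact PP_right hP (PP_right hP (em_mem_PP hz) _) _

/-- `sev` as an algebra map -/
noncomputable def PPf_sev (l r : K) : P2 B →ₐ[K] B :=
  { (sev l r : P2 B →+* B) with
    commutes' := fun c => by
      show sev l r (algebraMap K (P2 B) c) = algebraMap K B c
      rw [a0_algebraMap, sev_em] }

theorem PPf_sev_mem {P : Submodule K B} {x : P2 B} (hx : x ∈ PP P) (l r : K) :
    sev l r x ∈ P := by
  rw [sev_sum]
  unfold Polynomial.sum
  refine P.sum_mem fun s _ => P.sum_mem fun p _ => P.smul_mem _ (hx p s)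

/-- PROOF. For `l r : K`: `sev l r (lift y f) = lift (fun x => sev l r (y x)) f` (`sev l r` as an algebra map: `sev_smul` or
`a0_algebraMap`, `sev_em`) and `sev l r (y x) ∈ P` by `sev_sum`, so it is `0`; `coef_mem` with `S = ⊥` and `j1_ext`. -/
theorem vanish_PP [CharZero K] {X : Type} {P : Submodule K B} {f : FreeAlgebra K X}
    (hf : ∀ y : X → B, (∀ x, y x ∈ P) → FreeAlgebra.lift K y f = 0) (y : X → P2 B)
    (hy : ∀ x, y x ∈ PP P) : FreeAlgebra.lift K y f = 0 := by
  have h1 : ∀ l r : K, sev l r (FreeAlgebra.lift K y f) ∈ (⊥ : Submodule K B) := by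
    intro l r
    have h2 : (PPf_sev (B := B) l r).comp (FreeAlgebra.lift K y) =
        FreeAlgebra.lift K (fun x => sev l r (y x)) := by
      refine FreeAlgebra.hom_ext ?_
      funext x
      simp only [Function.comp_apply, AlgHom.comp_apply, FreeAlgebra.lift_ι_apply]
      rfl
    have h3 := congrArg (fun g => g f) h2
    have h4 : sev l r (FreeAlgebra.lift K y f) = FreeAlgebra.lift K (fun x => sev l r (y x)) f := h3
    rw [h4, hf _ (fun x => PPf_sev_mem (hy x) l r)]
    exact Submodule.zero_mem _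
  refine Polynomial.ext fun s => Polynomial.ext fun p => ?_
  have h5 := coef_mem ⊥ _ h1 p s
  rw [Submodule.mem_bot] at h5
  rw [h5, Polynomial.coeff_zero, Polynomial.coeff_zero]

theorem PPf_comm_l (z : B) : Commute (em z - lv B) (em z) :=
  (Commute.refl (em z)).sub_left (lv_comm (em z))

theorem PPf_comm_r (z : B) : Commute (em z - rv B) (em z) :=
  (Commute.refl (em z)).sub_left (rv_comm (em z))

theorem uq_comm_em (z : B) : uq z * em z = em z * uq z := by
  unfold uq
  exact ((Commute.refl (em z)).mul_left (PPf_comm_l z)).mul_left (PPf_comm_r z)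

/-- PROOF. `em z`, `em z - lv B`, `em z - rv B` commute, so `uq z * Q = em z * Q' - lv B * Q'`; `evz_em_mul`, `evz_lv_mul`. -/
theorem evz_uq_mul (z : B) (Q : P2 B) : evz K z (uq z * Q) = 0 := by
  have h1 : uq z * Q = em z * (em z * ((em z - rv B) * Q)) - lv B * (em z * ((em z - rv B) * Q)) := by
    rw [← sub_mul]
    unfold uq
    rw [← (PPf_comm_l z).eq]
    simp only [mul_assoc]
  rw [h1, map_sub, evz_em_mul z z rfl, evz_lv_mul, sub_self]

/-- PROOF. Mirror image, with `evz_rv_mul`, `evz_mul_em`. -/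
theorem evz_mul_uq (z : B) (Q : P2 B) : evz K z (Q * uq z) = 0 := by
  have h1 : Q * uq z = (Q * (em z * (em z - lv B))) * em z - rv B * (Q * (em z * (em z - lv B))) := by
    rw [rv_comm, ← mul_sub]
    unfold uq
    simp only [mul_assoc]
  rw [h1, map_sub, evz_mul_em z z rfl, evz_rv_mul, sub_self]

end Pool.Agent.H.MP_f5ceca_al.E
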