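import Pool.Agent.H.MP_f5ceca_al.E.Multi
import Pool.Agent.H.MP_f5ceca_al.E.PPf

/-!
Job: the relation for the middle words.
-/

namespace Pool.Agent.H.MP_f5ceca_al.E

open Pool.Agent.H.MP_f5ceca_al.G

universe u v w

variable {K : Type u} [Field K] [CharZero K] {X : Type} [DecidableEq X]
  {B : Type v} [Ring B] [Algebra K B]

/-- the letters of the extended alphabet -/
def Mid_T {m : ℕ} (t : Fin m → X) (α β : X) : Option (Option (Fin m)) → X
  | none => α
  | some none => β
  | some (some k) => t k

/-- the values of the letters of the extended alphabet -/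
noncomputable def Mid_y {m : ℕ} (z : B) (Y : Fin m → P2 B) (a b : P2 B) :
    Option (Option (Fin m)) → P2 B
  | none => a * uq z
  | some none => uq z * b
  | some (some k) => Y k

/-- the embedding of the words -/
def Mid_F {m : ℕ} (l : List (Fin m)) : List (Option (Option (Fin m))) :=
  none :: (l.map (fun k => some (some k)) ++ [some none])

/-- the content of the words -/
def Mid_g (m : ℕ) : Multiset (Option (Option (Fin m))) :=
  none ::ₘ (((Finset.univ : Finset (Fin m)).val.map fun k => some (some k)) + {some none})

theorem Mid_ss (m : ℕ) : Function.Injective (fun k : Fin m => some (some k)) := by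
  intro k l h
  simpa using h

theorem Mid_F_inj (m : ℕ) : Function.Injective (Mid_F (m := m)) := by
  intro l l' h
  unfold Mid_F at h
  rw [List.cons.injEq] at h
  exact (List.map_injective_iff.2 (Mid_ss m)) (List.append_cancel_right h.2)

theorem Mid_F_coe {m : ℕ} (l : List (Fin m)) : ((Mid_F l : List _) : Multiset _) =
    none ::ₘ (((l : Multiset (Fin m)).map fun k => some (some k)) + {some none}) := by
  unfold Mid_F
  rw [← Multiset.cons_coe, ← Multiset.coe_add, Multiset.map_coe, Multiset.coe_singleton]

theorem Mid_lists {ι : Type} [DecidableEq ι] {γ : Multiset ι} {l : List ι} :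
    l ∈ γ.lists.toFinset ↔ (l : Multiset ι) = γ := by
  rw [Multiset.mem_toFinset, Multiset.mem_lists_iff]
  exact eq_comm

theorem Mid_F_mem {m : ℕ} (l : List (Fin m)) :
    Mid_F l ∈ (Mid_g m).lists.toFinset ↔ l ∈ LL m := by
  rw [Mid_lists, mem_LL, Mid_F_coe]
  unfold Mid_g
  rw [Multiset.cons_inj_right, add_left_inj]
  exact (Multiset.map_injective (Mid_ss m)).eq_iff

/-- a word with the given content which begins with `none` and ends with `some none` -/
theorem Mid_surj {m : ℕ} {l2 : List (Option (Option (Fin m)))}
    (h : none :: (l2 ++ [some none]) ∈ (Mid_g m).lists.toFinset) :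
    ∃ l' ∈ LL m, Mid_F l' = none :: (l2 ++ [some none]) := by
  have h1 := (Mid_lists.1 h).symm
  unfold Mid_g at h1
  have h2 : ((Finset.univ : Finset (Fin m)).val.map fun k => some (some k)) =
      (l2 : Multiset (Option (Option (Fin m)))) := by
    rw [← Multiset.cons_coe, ← Multiset.coe_add, Multiset.coe_singleton,
      Multiset.cons_inj_right, add_left_inj] at h1
    exact h1
  have h3 : ∀ x ∈ l2, x ∈ Set.range (fun k : Fin m => some (some k)) := by
    intro x hx
    rw [← Multiset.mem_coe, ← h2, Multiset.mem_map] at hx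
    obtain ⟨k, -, hk⟩ := hx
    exact ⟨k, hk⟩
  have h4 : l2 ∈ Set.range (List.map (fun k : Fin m => some (some k))) := by
    rw [Set.range_list_map]
    exact h3
  obtain ⟨l', rfl⟩ := h4
  exact ⟨l', (Mid_F_mem l').1 h, rfl⟩

omit [DecidableEq X] in
theorem Mid_F_T {m : ℕ} (t : Fin m → X) (α β : X) (l : List (Fin m)) :
    (Mid_F l).map (Mid_T t α β) = α :: (l.map t ++ [β]) := by
  unfold Mid_F
  rw [List.map_cons, List.map_append, List.map_map]
  rfl

theorem Mid_F_y {m : ℕ} (z : B) (Y : Fin m → P2 B) (a b : P2 B) (l : List (Fin m)) :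
    ((Mid_F l).map (Mid_y z Y a b)).prod = a * uq z * (l.map Y).prod * (uq z * b) := by
  unfold Mid_F
  rw [List.map_cons, List.map_append, List.map_map, List.prod_cons, List.prod_append]
  have h1 : List.map (Mid_y z Y a b ∘ fun k => some (some k)) l = l.map Y := rfl
  have h2 : (List.map (Mid_y z Y a b) [some none]).prod = uq z * b := by
    rw [List.map_cons, List.map_nil, List.prod_cons, List.prod_nil, mul_one]
    rfl
  rw [h1, h2]
  change a * uq z * _ = _
  rw [← mul_assoc]

/-- a letter which is not the first one -/
theorem Mid_first {m : ℕ} {z : B} {Y : Fin m → P2 B} (hY1 : ∀ k, ∃ y, Y k = uq z * y)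
    (a b : P2 B) {c : Option (Option (Fin m))} (hc : c ≠ none) :
    ∃ y, Mid_y z Y a b c = uq z * y := by
  rcases c with _ | c
  · exact absurd rfl hc
  · rcases c with _ | k
    · exact ⟨b, rfl⟩
    · exact hY1 k

/-- a letter which is not the last one -/
theorem Mid_last {m : ℕ} {z : B} {Y : Fin m → P2 B} (hY2 : ∀ k, ∃ y, Y k = y * uq z)
    (a b : P2 B) {c : Option (Option (Fin m))} (hc : c ≠ some none) :
    ∃ y, Mid_y z Y a b c = y * uq z := by
  rcases c with _ | c
  · exact ⟨a, rfl⟩
  · rcases c with _ | k
    · exact absurd rfl hc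
    · exact hY2 k

/-- Words which begin with `u` or end with `u` are killed by `evz`.

PROOF. `multi` in `C = P2 B`, `Q = PP P` (`vanish_PP`), `ι = Option (Option (Fin m))`, `T none = α`, `T (some none) = β`,
`T (some (some k)) = t k`, `y none = a * uq z`, `y (some none) = uq z * b`, `y (some (some k)) = Y k` (all in `PP P`: `uq_mem_PP`, and
`Y k = uq z * y`), and `γ = none ::ₘ some none ::ₘ (Finset.univ.val.map (fun k => some (some k)))`. Apply `evz K z` to the sum over
`l ∈ γ.lists.toFinset`. If the first letter of `l` is not `none`, the word begins with `uq z`, so `evz_uq_mul`; if the last letter is not `some none`, the word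
ends with `uq z` (note that `y none = a * uq z` ends with `uq z`), so `evz_mul_uq`. The others are `l = none :: (l'.map (fun k => some (some k)) ++ [some none])`
with `l' ∈ LL m` (bijection; `Finset.sum_of_injOn` or `Finset.sum_subset` + `Finset.sum_image`). -/
theorem mid {P : Submodule K B} (hP : ∀ a u b : B, u ∈ P → a * u * b ∈ P) {f : FreeAlgebra K X}
    (hf : ∀ y : X → B, (∀ x, y x ∈ P) → FreeAlgebra.lift K y f = 0) {z : B} (hz : z ∈ P) {m : ℕ}
    (t : Fin m → X) (α β : X) (Y : Fin m → P2 B) (hY1 : ∀ k, ∃ y, Y k = uq z * y)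
    (hY2 : ∀ k, ∃ y, Y k = y * uq z) (a b : P2 B) :
    ∑ l ∈ LL m, cf f (α :: (l.map t ++ [β])) •
      evz K z (a * uq z * (l.map Y).prod * (uq z * b)) = 0 := by
  classical
  have hy : ∀ k, Mid_y z Y a b k ∈ PP P := by
    intro k
    rcases k with _ | k
    · exact PP_left hP a (uq_mem_PP hP hz)
    · rcases k with _ | k
      · exact PP_right hP (uq_mem_PP hP hz) b
      · obtain ⟨y, hy⟩ := hY1 k
        change Y k ∈ PP P
        rw [hy]
        exact PP_right hP (uq_mem_PP hP hz) y
  have h0 := multi (K := K) (Q := PP P) (f := f) (vanish_PP hf) (Mid_T t α β) (Mid_y z Y a b)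
    hy (Mid_g m)
  have h1 := congrArg (evz K z) h0
  rw [map_sum, map_zero] at h1
  rw [← h1, ← Finset.sum_subset (s₁ := (LL m).image Mid_F)]
  · rw [Finset.sum_image fun l _ l' _ h => Mid_F_inj m h]
    refine Finset.sum_congr rfl fun l _ => ?_
    rw [Mid_F_T, Mid_F_y, map_smul]
  · intro l hl
    obtain ⟨l', hl', rfl⟩ := Finset.mem_image.1 hl
    exact (Mid_F_mem l').2 hl'
  · intro l hl hl'
    rw [map_smul]
    suffices hs : evz K z (l.map (Mid_y z Y a b)).prod = 0 by rw [hs, smul_zero]
    rcases l with _ | ⟨c, l1⟩
    · exfalso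
      have h2 := congrArg Multiset.card (Mid_lists.1 hl)
      unfold Mid_g at h2
      simp at h2
    · by_cases hc : c = none
      · subst hc
        rcases List.eq_nil_or_concat l1 with h2 | ⟨l2, d, h2⟩
        · exfalso
          subst h2
          have h2 := congrArg Multiset.card (Mid_lists.1 hl)
          unfold Mid_g at h2
          simp at h2
        · rw [List.concat_eq_append] at h2
          subst h2
          by_cases hd : d = some none
          · exfalso
            subst hd
            obtain ⟨l', h3, h4⟩ := Mid_surj hl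
            exact hl' (Finset.mem_image.2 ⟨l', h3, h4⟩)
          · obtain ⟨y, hy⟩ := Mid_last hY2 a b hd
            rw [List.map_cons, List.map_append, List.prod_cons, List.prod_append, List.map_cons,
              List.map_nil, List.prod_cons, List.prod_nil, mul_one, hy, ← mul_assoc,
              ← mul_assoc]
            exact evz_mul_uq z _
      · obtain ⟨y, hy⟩ := Mid_first hY1 a b hc
        rw [List.map_cons, List.prod_cons, hy, mul_assoc]
        exact evz_uq_mul z _

end Pool.Agent.H.MP_f5ceca_al.E
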