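import Pool.Agent.H.MP_f5ceca_al.E.Defs

/-!
Job: the multilinear consequences of an identity.
-/

namespace Pool.Agent.H.MP_f5ceca_al.E

open Pool.Agent.H.MP_f5ceca_al.G

universe u v w

/-- the words over a given word -/
def Multi_fib {X : Type} [DecidableEq X] {ι : Type} [Fintype ι] [DecidableEq ι] (T : ι → X) :
    List X → Finset (List ι)
  | [] => {[]}
  | x :: w => ((Finset.univ.filter fun k => T k = x) ×ˢ Multi_fib T w).image
      fun p => p.1 :: p.2

theorem Multi_mem_fib {X : Type} [DecidableEq X] {ι : Type} [Fintype ι] [DecidableEq ι]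
    (T : ι → X) : ∀ (w : List X) (l : List ι), l ∈ Multi_fib T w ↔ l.map T = w
  | [], l => by
    unfold Multi_fib
    rw [Finset.mem_singleton, List.map_eq_nil_iff]
  | x :: w, l => by
    unfold Multi_fib
    rw [Finset.mem_image]
    constructor
    · rintro ⟨p, hp, rfl⟩
      rw [Finset.mem_product, Finset.mem_filter] at hp
      rw [List.map_cons, hp.1.2, (Multi_mem_fib T w p.2).1 hp.2]
    · intro h
      rcases l with _ | ⟨k, l⟩
      · simp at h
      · rw [List.map_cons, List.cons.injEq] at h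
        refine ⟨(k, l), ?_, rfl⟩
        rw [Finset.mem_product, Finset.mem_filter]
        exact ⟨⟨Finset.mem_univ _, h.1⟩, (Multi_mem_fib T w l).2 h.2⟩

theorem Multi_prod {K : Type u} [Field K] {X : Type} [DecidableEq X] {C : Type v} [Ring C]
    [Algebra K C] {ι : Type} [Fintype ι] [DecidableEq ι] (T : ι → X) (y : ι → C) (τ : ι → K) :
    ∀ w : List X, (w.map fun x => ∑ k ∈ Finset.univ.filter (fun k => T k = x), τ k • y k).prod =
      ∑ l ∈ Multi_fib T w, (l.map τ).prod • (l.map y).prod
  | [] => by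
    unfold Multi_fib
    simp
  | x :: w => by
    have hfib : Multi_fib T (x :: w) = ((Finset.univ.filter fun k => T k = x) ×ˢ
        Multi_fib T w).image (fun p => p.1 :: p.2) := rfl
    rw [List.map_cons, List.prod_cons, Multi_prod T y τ w, hfib,
      Finset.sum_image (fun a _ b _ h => by
      rw [List.cons.injEq] at h
      exact Prod.ext h.1 h.2), Finset.sum_product, Finset.sum_mul]
    refine Finset.sum_congr rfl fun k _ => ?_
    rw [Finset.mul_sum]
    refine Finset.sum_congr rfl fun l _ => ?_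
    rw [List.map_cons, List.prod_cons, List.map_cons, List.prod_cons, smul_mul_smul_comm]

/-- If `f` vanishes on `Q` then so do the components of `f(∑_{T k = x} y_k)`.

PROOF. `eq_sum_cf`: finset `s` of words. For `τ : ι → K` put `y'_x = ∑_{k : T k = x} τ_k • y_k ∈ Q`, so by
`j1_lift` `∑_{w ∈ s} cf f w • (w.map y').prod = 0`. For a word `w` let `fib w` be the finset of all `l : List ι`
with `l.map T = w` (recursively: `fib [] = {[]}`, `fib (x :: w) = ((univ.filter (T · = x)) ×ˢ fib w).image (fun p => p.1 :: p.2)`).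
Then `(w.map y').prod = ∑_{l ∈ fib w} (l.map τ).prod • (l.map y).prod` (induction on `w`). With
`s' = s.biUnion fib` (the sets `fib w` are disjoint): `∑_{l ∈ s'} (l.map τ).prod • g l = 0` for all `τ`,
`g l = cf f (l.map T) • (l.map y).prod`, and `g l = 0` for `l ∉ s'`. Now `j1_mv` and `j1_lists`. -/
theorem multi {K : Type u} [Field K] [CharZero K] {X : Type} [DecidableEq X] {C : Type v} [Ring C]
    [Algebra K C] {Q : Submodule K C} {f : FreeAlgebra K X}
    (hf : ∀ y : X → C, (∀ x, y x ∈ Q) → FreeAlgebra.lift K y f = 0)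
    {ι : Type} [Fintype ι] [DecidableEq ι] (T : ι → X) (y : ι → C) (hy : ∀ k, y k ∈ Q)
    (γ : Multiset ι) :
    ∑ l ∈ γ.lists.toFinset, cf f (l.map T) • (l.map y).prod = 0 := by
  obtain ⟨s, hs0, hsf⟩ := eq_sum_cf f
  rw [← j1_lists (s.biUnion (Multi_fib T)) (fun l => cf f (l.map T) • (l.map y).prod)
    (fun l hl => by
      rw [hs0 (l.map T) fun h => hl (Finset.mem_biUnion.2
        ⟨l.map T, h, (Multi_mem_fib T _ l).2 rfl⟩), zero_smul]) γ]
  refine j1_mv (K := K) _ _ (fun τ => ?_) γ
  have h1 := hf (fun x => ∑ k ∈ Finset.univ.filter (fun k => T k = x), τ k • y k)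
    fun x => Q.sum_mem fun k _ => Q.smul_mem _ (hy k)
  rw [j1_lift hsf] at h1
  rw [Finset.sum_biUnion]
  · rw [← h1]
    refine Finset.sum_congr rfl fun w _ => ?_
    rw [Multi_prod, Finset.smul_sum]
    refine Finset.sum_congr rfl fun l hl => ?_
    rw [(Multi_mem_fib T w l).1 hl, smul_comm]
  · intro w _ w' _ hww
    refine Finset.disjoint_left.2 fun l hl hl' => hww ?_
    rw [← (Multi_mem_fib T w l).1 hl, ← (Multi_mem_fib T w' l).1 hl']

end Pool.Agent.H.MP_f5ceca_al.E
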