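import Pool.Agent.H.MP_f5ceca_al.E.TId
import Pool.Agent.H.MP_f5ceca_al.Conv.Alg

/-!
Job: codes of the values of polynomials.
-/

namespace Pool.Agent.H.MP_f5ceca_al.E

open Pool.Agent.H.MP_f5ceca_al.N (FA xx Com Fil Aug idn)
open Pool.Agent.H.MP_f5ceca_al.Conv

universe u

variable {K : Type u} [Field K] (κ : CField K) {n : ℕ}

/-- Product of codes. -/
def cmul (P Q : List (ℕ × List (Fin n))) : List (ℕ × List (Fin n)) :=
  P.flatMap fun p => Q.map fun q => (κ.mul p.1 q.1, p.2 ++ q.2)

/-- PROOF. Induction on `P`, `Q`; `wd_append`. -/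
theorem ev_cmul (P Q : List (ℕ × List (Fin n))) :
    κ.ev (wd K) (cmul κ P Q) = κ.ev (wd K) P * κ.ev (wd K) Q := by
  induction P with
  | nil => simp [cmul]
  | cons p P ih =>
    have h : cmul κ (p :: P) Q = (Q.map fun q => (κ.mul p.1 q.1, p.2 ++ q.2)) ++ cmul κ P Q := by
      simp [cmul]
    have h2 : κ.ev (wd K) (Q.map fun q => (κ.mul p.1 q.1, p.2 ++ q.2)) =
        κ.c p.1 • wd K p.2 * κ.ev (wd K) Q := by
      clear h ih
      induction Q with
      | nil => simp
      | cons q Q ih =>
        rw [List.map_cons, CField.ev_cons, CField.ev_cons, ih, mul_add, κ.c_mul, wd_append,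
          smul_mul_smul_comm]
    rw [h, CField.ev_append, h2, ih, CField.ev_cons, add_mul]

/-- PROOF. `comp_flatMap`, `comp_map`, `κ.mul_comp`, `Computable.list_append`. -/
theorem cmul_comp : Computable₂ (cmul κ (n := n)) := by
  have h1 : Computable₂ fun (x : (List (ℕ × List (Fin n)) × List (ℕ × List (Fin n))) ×
      (ℕ × List (Fin n))) (q : ℕ × List (Fin n)) => (κ.mul x.2.1 q.1, x.2.2 ++ q.2) :=
    Computable.pair
      (κ.mul_comp.comp (Computable.fst.comp (Computable.snd.comp Computable.fst))
        (Computable.fst.comp Computable.snd))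
      (Computable.list_append.comp (Computable.snd.comp (Computable.snd.comp Computable.fst))
        (Computable.snd.comp Computable.snd))
  have h2 : Computable₂ fun (a : List (ℕ × List (Fin n)) × List (ℕ × List (Fin n)))
      (p : ℕ × List (Fin n)) => a.2.map fun q => (κ.mul p.1 q.1, p.2 ++ q.2) :=
    comp_map (f := fun x : (List (ℕ × List (Fin n)) × List (ℕ × List (Fin n))) ×
      (ℕ × List (Fin n)) => x.1.2) (Computable.snd.comp Computable.fst) h1
  exact comp_flatMap (f := fun a : List (ℕ × List (Fin n)) × List (ℕ × List (Fin n)) => a.1)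
    Computable.fst h2

/-- The code of the value of a word in countably many letters. -/
noncomputable def cword (L : List (List (ℕ × List (Fin n)))) : List ℕ → List (ℕ × List (Fin n))
  | [] => [(κ.one, [])]
  | i :: w => cmul κ (L.getD i []) (cword L w)

theorem ev_cword (L : List (List (ℕ × List (Fin n)))) (w : List ℕ) :
    κ.ev (wd K) (cword κ L w) = (w.map fun i => κ.ev (wd K) (L.getD i [])).prod := by
  induction w with
  | nil => simp [cword]
  | cons i w ih => rw [cword, ev_cmul, ih, List.map_cons, List.prod_cons]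

theorem cword_comp (w : List ℕ) : Computable fun L => cword κ (n := n) L w := by
  induction w with
  | nil => exact Computable.const _
  | cons i w ih =>
    have h : Computable fun L : List (List (ℕ × List (Fin n))) => L.getD i [] :=
      (Primrec.list_getD ([] : List (ℕ × List (Fin n)))).to_comp.comp Computable.id
        (Computable.const i)
    exact (cmul_comp κ).comp h ih

/-- The code of the value of a polynomial given by a code. -/
noncomputable def cpoly (f : List (ℕ × List ℕ)) (L : List (List (ℕ × List (Fin n)))) :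
    List (ℕ × List (Fin n)) :=
  f.flatMap fun p => κ.smul p.1 (cword κ L p.2)

theorem ev_cpoly (f : List (ℕ × List ℕ)) (L : List (List (ℕ × List (Fin n)))) :
    κ.ev (wd K) (cpoly κ f L) =
      FreeAlgebra.lift K (fun i => κ.ev (wd K) (L.getD i []))
        (κ.ev (fun w : List ℕ => (w.map (FreeAlgebra.ι K)).prod) f) := by
  induction f with
  | nil => simp [cpoly]
  | cons p f ih =>
    have h : cpoly κ (p :: f) L = κ.smul p.1 (cword κ L p.2) ++ cpoly κ f L := by simp [cpoly]
    have h2 : FreeAlgebra.lift K (fun i => κ.ev (wd K) (L.getD i []))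
        ((p.2.map (FreeAlgebra.ι K)).prod) =
        (p.2.map fun i => κ.ev (wd K) (L.getD i [])).prod := by
      rw [map_list_prod, List.map_map]
      congr 1
      refine List.map_congr_left fun i _ => ?_
      rw [Function.comp_apply, FreeAlgebra.lift_ι_apply]
    rw [h, CField.ev_append, CField.ev_smul, ev_cword, ih, CField.ev_cons, map_add, map_smul, h2]

/-- PROOF. Induction on the (fixed) list `f`. -/
theorem cpoly_comp (f : List (ℕ × List ℕ)) : Computable (cpoly κ (n := n) f) := by
  induction f with
  | nil => exact Computable.const _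
  | cons p f ih =>
    have h : Computable fun L => κ.smul p.1 (cword κ (n := n) L p.2) ++ cpoly κ f L :=
      Computable.list_append.comp (κ.smul_comp.comp (Computable.const p.1) (cword_comp κ p.2)) ih
    refine h.of_eq fun L => ?_
    simp [cpoly]

theorem RegA_wd_mem {w : List (Fin n)} (h : w ≠ []) : wd K w ∈ Aug K n := by
  cases w with
  | nil => exact absurd rfl h
  | cons i w =>
    rw [N.Basic_mem_Aug, wd_cons, map_mul]
    simp [FreeAlgebra.algebraMapInv]

theorem RegA_filter (P : List (ℕ × List (Fin n))) : ∃ c : K,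
    κ.ev (wd K) P = κ.ev (wd K) (P.filter fun p => p.2 ≠ []) + c • 1 := by
  induction P with
  | nil => exact ⟨0, by simp⟩
  | cons p P ih =>
    obtain ⟨c, hc⟩ := ih
    by_cases hp : p.2 = []
    · refine ⟨κ.c p.1 + c, ?_⟩
      rw [List.filter_cons_of_neg (by simpa using hp), CField.ev_cons, hc, hp, wd_nil, add_smul]
      abel
    · refine ⟨c, ?_⟩
      rw [List.filter_cons_of_pos (by simpa using hp), CField.ev_cons, hc, CField.ev_cons,
        add_assoc]

/-- PROOF. `Aug` is the span of the nonempty words (subtract the constant term: apply `algebraMapInv`); `κ.mem_span_iff`. -/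
theorem exists_aug_code {x : FA K n} (hx : x ∈ Aug K n) :
    ∃ P : List (ℕ × List (Fin n)), (∀ p ∈ P, p.2 ≠ []) ∧ κ.ev (wd K) P = x := by
  obtain ⟨P, hP⟩ := wd_exists_code κ x
  obtain ⟨c, hc⟩ := RegA_filter κ P
  have h1 : ∀ p ∈ P.filter fun p => p.2 ≠ [], p.2 ≠ [] := fun p hp => by
    simpa using (List.mem_filter.1 hp).2
  refine ⟨P.filter fun p => p.2 ≠ [], h1, ?_⟩
  have h2 : κ.ev (wd K) (P.filter fun p => p.2 ≠ []) ∈ Aug K n :=
    κ.ev_mem fun p hp => RegA_wd_mem (h1 p hp)
  rw [hP] at hc
  rw [N.Basic_mem_Aug] at hx h2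
  have h3 : c = 0 := by
    have h4 := congrArg (FreeAlgebra.algebraMapInv : FA K n →ₐ[K] K) hc
    rw [hx, map_add, h2, map_smul, map_one, smul_eq_mul, mul_one, zero_add] at h4
    exact h4.symm
  rw [hc, h3, zero_smul, add_zero]

theorem aug_code_mem {P : List (ℕ × List (Fin n))} (h : ∀ p ∈ P, p.2 ≠ []) :
    κ.ev (wd K) P ∈ Aug K n :=
  κ.ev_mem fun p hp => RegA_wd_mem (h p hp)

end Pool.Agent.H.MP_f5ceca_al.E
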