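import Pool.Agent.H.MP_f5ceca_al.E.TIdn
import Pool.Agent.H.MP_f5ceca_al.E.RegA

/-!
Job: T-ideals generated by finitely many polynomials are recursively enumerable.
-/

namespace Pool.Agent.H.MP_f5ceca_al.E

open Pool.Agent.H.MP_f5ceca_al.N (FA xx Com Fil Aug idn)
open Pool.Agent.H.MP_f5ceca_al.Conv

universe u

variable {K : Type u} [Field K] (κ : CField K) {n : ℕ}

theorem Reg_basis (w : List ℕ) : FreeAlgebra.basisFreeMonoid K ℕ (FreeMonoid.ofList w) =
    (w.map (FreeAlgebra.ι K)).prod := by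
  have h1 : FreeAlgebra.basisFreeMonoid K ℕ (FreeMonoid.ofList w) =
      FreeAlgebra.equivMonoidAlgebraFreeMonoid.symm
        (MonoidAlgebra.of K (FreeMonoid ℕ) (FreeMonoid.ofList w)) := rfl
  rw [h1]
  change (MonoidAlgebra.lift K (FreeAlgebra K ℕ) (FreeMonoid ℕ)
    (FreeMonoid.lift (FreeAlgebra.ι K))) _ = _
  rw [MonoidAlgebra.lift_of, FreeMonoid.lift_apply]
  rfl

theorem Reg_span (x : FreeAlgebra K ℕ) :
    x ∈ Submodule.span K (Set.range fun w : List ℕ => (w.map (FreeAlgebra.ι K)).prod) := by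
  have h1 := (FreeAlgebra.basisFreeMonoid K ℕ).span_eq
  have h2 : x ∈ (⊤ : Submodule K (FreeAlgebra K ℕ)) := trivial
  rw [← h1] at h2
  refine Submodule.span_mono ?_ h2
  rintro _ ⟨w, rfl⟩
  exact ⟨FreeMonoid.toList w, (Reg_basis (FreeMonoid.toList w)).symm⟩

theorem Reg_lift {g g' : ℕ → FA K n} {w : List ℕ} (h : ∀ i ∈ w, g i = g' i) :
    FreeAlgebra.lift K g ((w.map (FreeAlgebra.ι K)).prod) =
      FreeAlgebra.lift K g' ((w.map (FreeAlgebra.ι K)).prod) := by
  rw [map_list_prod, map_list_prod, List.map_map, List.map_map]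
  congr 1
  refine List.map_congr_left fun i hi => ?_
  rw [Function.comp_apply, Function.comp_apply, FreeAlgebra.lift_ι_apply,
    FreeAlgebra.lift_ι_apply, h i hi]

theorem Reg_bound (F : List (ℕ × List ℕ)) : ∃ N, ∀ p ∈ F, ∀ i ∈ p.2, i < N := by
  refine ⟨(F.flatMap Prod.snd).toFinset.sup id + 1, fun p hp i hi => Nat.lt_succ_of_le ?_⟩
  exact Finset.le_sup (f := id) (List.mem_toFinset.2 (List.mem_flatMap.2 ⟨p, hp, hi⟩))

theorem Reg_dec : ComputablePred fun L : List (List (ℕ × List (Fin n))) =>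
    ∀ R ∈ L, ∀ p ∈ R, p.2 ≠ [] := by
  have h0 : ComputablePred fun p : ℕ × List (Fin n) => p.2 ≠ [] := by
    have h1 : ComputablePred fun p : List (Fin n) × List (Fin n) => p.1 = p.2 :=
      Primrec.eq.computablePred
    exact (cp_comp h1 (Computable.pair Computable.snd (Computable.const []))).not
  have h1 : ComputablePred fun R : List (ℕ × List (Fin n)) => ∀ p ∈ R, p.2 ≠ [] :=
    cp_forall_mem (p := fun (_ : List (ℕ × List (Fin n))) (p : ℕ × List (Fin n)) => p.2 ≠ [])
      (cp_comp h0 Computable.snd) Computable.id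
  exact cp_forall_mem (p := fun (_ : List (List (ℕ × List (Fin n))))
    (R : List (ℕ × List (Fin n))) => ∀ p ∈ R, p.2 ≠ []) (cp_comp h1 Computable.snd)
    Computable.id

/-- PROOF. Let `f = κ.ev (words) F` for a code `F` (`κ.exists_code`, the words span `FreeAlgebra K ℕ`). `Tset {f} n` is the span of the values of the codes
`cmul P (cmul (cpoly F L) Q)` where all words in `L` are nonempty (a decidable condition): given `g : ℕ → Aug` take for `L` codes of `g 0, …, g (N - 1)`
where all letters in `F` are `< N`. `κ.re_span`, `wd_zero_cp`. -/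
theorem re_Tset_one (f : FreeAlgebra K ℕ) : κ.RESub (wd K) (Tset ({f} : Set _) n) := by
  obtain ⟨F, rfl⟩ := κ.exists_code (fun w : List ℕ => (w.map (FreeAlgebra.ι K)).prod) f
    (Reg_span f)
  have hD : REPred fun j : List (ℕ × List (Fin n)) × List (List (ℕ × List (Fin n))) ×
      List (ℕ × List (Fin n)) => ∀ R ∈ j.2.1, ∀ p ∈ R, p.2 ≠ [] :=
    (cp_comp Reg_dec (Computable.fst.comp Computable.snd)).to_re
  have he : Computable fun j : List (ℕ × List (Fin n)) × List (List (ℕ × List (Fin n))) ×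
      List (ℕ × List (Fin n)) => cmul κ j.1 (cmul κ (cpoly κ F j.2.1) j.2.2) :=
    (cmul_comp κ).comp Computable.fst ((cmul_comp κ).comp ((cpoly_comp κ F).comp
      (Computable.fst.comp Computable.snd)) (Computable.snd.comp Computable.snd))
  have h := κ.re_span (wd_zero_cp κ).to_re hD he
  have hset : {x | ∃ j : List (ℕ × List (Fin n)) × List (List (ℕ × List (Fin n))) ×
      List (ℕ × List (Fin n)), (∀ R ∈ j.2.1, ∀ p ∈ R, p.2 ≠ []) ∧
        x = κ.ev (wd K) (cmul κ j.1 (cmul κ (cpoly κ F j.2.1) j.2.2))} =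
      {z | ∃ (a b : FA K n) (f : FreeAlgebra K ℕ) (g : ℕ → FA K n),
        f ∈ ({κ.ev (fun w : List ℕ => (w.map (FreeAlgebra.ι K)).prod) F} : Set _) ∧
        (∀ i, g i ∈ Aug K n) ∧ z = a * FreeAlgebra.lift K g f * b} := by
    ext z
    constructor
    · rintro ⟨⟨P, L, Q⟩, hL, rfl⟩
      refine ⟨κ.ev (wd K) P, κ.ev (wd K) Q, _, fun i => κ.ev (wd K) (L.getD i []), rfl,
        fun i => aug_code_mem κ fun p hp => ?_, ?_⟩
      · by_cases hi : i < L.length
        · rw [List.getD_eq_getElem _ _ hi] at hp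
          exact hL _ (List.getElem_mem hi) p hp
        · rw [List.getD_eq_default _ _ (not_lt.1 hi)] at hp
          simp at hp
      · rw [ev_cmul, ev_cmul, ev_cpoly, mul_assoc]
    · rintro ⟨a, b, f, g, hf, hg, rfl⟩
      rw [Set.mem_singleton_iff] at hf
      subst hf
      obtain ⟨P, rfl⟩ := wd_exists_code κ a
      obtain ⟨Q, rfl⟩ := wd_exists_code κ b
      choose c hc1 hc2 using fun i => exists_aug_code κ (hg i)
      obtain ⟨N, hN⟩ := Reg_bound F
      refine ⟨⟨P, (List.range N).map c, Q⟩, ?_, ?_⟩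
      · intro R hR p hp
        obtain ⟨i, _, rfl⟩ := List.mem_map.1 hR
        exact hc1 i p hp
      · rw [ev_cmul, ev_cmul, ev_cpoly, mul_assoc]
        congr 2
        rw [← AlgHom.toLinearMap_apply, ← AlgHom.toLinearMap_apply, κ.ev_linear, κ.ev_linear]
        refine κ.ev_congr fun p hp => ?_
        rw [AlgHom.toLinearMap_apply, AlgHom.toLinearMap_apply]
        refine Reg_lift fun i hi => ?_
        have hiN := hN p hp i hi
        rw [List.getD_eq_getElem _ _ (by simpa using hiN), List.getElem_map, List.getElem_range,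
          hc2]
  rw [hset] at h
  exact h

theorem Reg_union (S S' : Set (FreeAlgebra K ℕ)) :
    Tset (S ∪ S') n = Tset S n ⊔ Tset S' n := by
  unfold Tset
  rw [← Submodule.span_union]
  congr 1
  ext z
  constructor
  · rintro ⟨a, b, f, g, hf | hf, h⟩
    · exact Or.inl ⟨a, b, f, g, hf, h⟩
    · exact Or.inr ⟨a, b, f, g, hf, h⟩
  · rintro (⟨a, b, f, g, hf, h⟩ | ⟨a, b, f, g, hf, h⟩)
    · exact ⟨a, b, f, g, Or.inl hf, h⟩
    · exact ⟨a, b, f, g, Or.inr hf, h⟩

theorem Reg_empty : Tset (∅ : Set (FreeAlgebra K ℕ)) n = ⊥ := by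
  unfold Tset
  rw [Submodule.span_eq_bot]
  rintro z ⟨a, b, f, g, hf, -⟩
  exact hf.elim

/-- PROOF. `Tset` of a union is the supremum; `κ.re_sup`, `wd_span`; induction on the finite set. -/
theorem re_Tset {S : Set (FreeAlgebra K ℕ)} (hS : S.Finite) : κ.RESub (wd K) (Tset S n) := by
  induction S, hS using Set.Finite.induction_on with
  | empty =>
    rw [Reg_empty]
    exact ((wd_zero_cp κ).to_re).of_eq fun P => (Submodule.mem_bot K).symm
  | insert _ _ ih =>
    rw [Set.insert_eq, Reg_union]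
    exact κ.re_sup (re_Tset_one κ _) ih (by rw [wd_span]; exact le_top)

/-- PROOF. `idn_eq`. -/
theorem re_idn {S : Set (FreeAlgebra K ℕ)} (hS : S.Finite) : κ.RESub (wd K) (idn S n) := by
  rw [idn_eq]
  exact re_Tset κ hS

/-- PROOF. `Tg_eq`. -/
theorem re_Tg {Y : Set (FA K n)} (hY : Y.Finite) : κ.RESub (wd K) (Tg Y) := by
  rw [Tg_eq]
  exact re_Tset κ (hY.image _)

end Pool.Agent.H.MP_f5ceca_al.E
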