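import Pool.Agent.H.MP_f5ceca_al.N.Quot
import Pool.Agent.H.MP_f5ceca_al.G.J4
import Pool.Agent.H.MP_f5ceca_al.S.Defs

/-!
Job: T-ideals of the free algebra of rank `n`.
-/

namespace Pool.Agent.H.MP_f5ceca_al.E

open Pool.Agent.H.MP_f5ceca_al.N (FA xx Com Fil Aug idn)

universe u v w

variable {K : Type u} [Field K] {n : ℕ}

/-- T-ideals of the free algebra of rank `n` (in the nonunital sense). -/
structure IsT (T : Submodule K (FA K n)) : Prop where
  left : ∀ a, ∀ z ∈ T, a * z ∈ T
  right : ∀ a, ∀ z ∈ T, z * a ∈ T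
  subst : ∀ c : Fin n → FA K n, (∀ j, c j ∈ Aug K n) → ∀ z ∈ T, FreeAlgebra.lift K c z ∈ T

theorem IsT.isId {T : Submodule K (FA K n)} (h : IsT T) : S.IsId T := ⟨h.left, h.right⟩

theorem IsT.isOp {T : Submodule K (FA K n)} (h : IsT T) : N.IsOp K n T where
  left := h.left
  right := h.right
  op := fun c hc z hz => h.subst _ (fun j => add_mem (N.xx_mem_Aug K j) (N.Com_le_Aug K n (hc j)))
    z hz

/-- Elements of `Aug` are mapped to elements of `Aug` by substitutions of elements of `Aug`. -/
theorem lift_mem_Aug {X : Type} {c : X → FA K n} (hc : ∀ j, c j ∈ Aug K n)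
    {z : FreeAlgebra K X} (hz : FreeAlgebra.algebraMapInv z = 0) :
    FreeAlgebra.lift K c z ∈ Aug K n := by
  have h1 : (FreeAlgebra.algebraMapInv : FA K n →ₐ[K] K).comp (FreeAlgebra.lift K c) =
      FreeAlgebra.algebraMapInv := by
    apply FreeAlgebra.hom_ext
    funext i
    have h2 := N.Basic_mem_Aug.1 (hc i)
    simp only [Function.comp_apply, AlgHom.comp_apply, FreeAlgebra.lift_ι_apply]
    rw [h2]
    simp [FreeAlgebra.algebraMapInv]
  have h3 := DFunLike.congr_fun h1 z
  rw [hz] at h3
  exact N.Basic_mem_Aug.2 h3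

theorem isT_top : IsT (⊤ : Submodule K (FA K n)) := ⟨fun _ _ _ => trivial, fun _ _ _ => trivial,
  fun _ _ _ _ => trivial⟩

theorem isT_bot : IsT (⊥ : Submodule K (FA K n)) where
  left a z hz := by
    rw [Submodule.mem_bot] at hz ⊢
    rw [hz, mul_zero]
  right a z hz := by
    rw [Submodule.mem_bot] at hz ⊢
    rw [hz, zero_mul]
  subst c _ z hz := by
    rw [Submodule.mem_bot] at hz ⊢
    rw [hz, map_zero]

theorem isT_Aug : IsT (Aug K n) where
  left a _ hz := N.Aug_left a hz
  right a _ hz := N.Aug_right a hz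
  subst _ hc _ hz := lift_mem_Aug hc (N.Basic_mem_Aug.1 hz)

theorem isT_idn (S : Set (FreeAlgebra K ℕ)) : IsT (idn S n) where
  left a _ hz := N.idn_left S n a hz
  right a _ hz := N.idn_right S n a hz
  subst c hc _ hz := N.idn_subst S n n hz c hc

theorem IsT.sup {T T' : Submodule K (FA K n)} (h : IsT T) (h' : IsT T') : IsT (T ⊔ T') where
  left a z hz := by
    obtain ⟨x, hx, y, hy, rfl⟩ := Submodule.mem_sup.1 hz
    rw [mul_add]
    exact Submodule.add_mem_sup (h.left a x hx) (h'.left a y hy)
  right a z hz := by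
    obtain ⟨x, hx, y, hy, rfl⟩ := Submodule.mem_sup.1 hz
    rw [add_mul]
    exact Submodule.add_mem_sup (h.right a x hx) (h'.right a y hy)
  subst c hc z hz := by
    obtain ⟨x, hx, y, hy, rfl⟩ := Submodule.mem_sup.1 hz
    rw [map_add]
    exact Submodule.add_mem_sup (h.subst c hc x hx) (h'.subst c hc y hy)

theorem IsT.inf {T T' : Submodule K (FA K n)} (h : IsT T) (h' : IsT T') : IsT (T ⊓ T') where
  left a z hz := ⟨h.left a z hz.1, h'.left a z hz.2⟩
  right a z hz := ⟨h.right a z hz.1, h'.right a z hz.2⟩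
  subst c hc z hz := ⟨h.subst c hc z hz.1, h'.subst c hc z hz.2⟩

/-- PROOF. `Submodule.mul_induction_on`. -/
theorem IsT.mul {T T' : Submodule K (FA K n)} (h : IsT T) (h' : IsT T') : IsT (T * T') where
  left a z hz := by
    induction hz using Submodule.mul_induction_on' with
    | mem_mul_mem p hp q hq =>
      rw [← mul_assoc]
      exact Submodule.mul_mem_mul (h.left a p hp) hq
    | add x _ y _ hx hy => rw [mul_add]; exact add_mem hx hy
  right a z hz := by
    induction hz using Submodule.mul_induction_on' with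
    | mem_mul_mem p hp q hq =>
      rw [mul_assoc]
      exact Submodule.mul_mem_mul hp (h'.right a q hq)
    | add x _ y _ hx hy => rw [add_mul]; exact add_mem hx hy
  subst c hc z hz := by
    induction hz using Submodule.mul_induction_on' with
    | mem_mul_mem p hp q hq =>
      rw [map_mul]
      exact Submodule.mul_mem_mul (h.subst c hc p hp) (h'.subst c hc q hq)
    | add x _ y _ hx hy => rw [map_add]; exact add_mem hx hy

/-- PROOF. The generators of `Com` are mapped to generators. -/
theorem isT_Com : IsT (Com K n) where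
  left a _ hz := N.Com_left K a hz
  right a _ hz := N.Com_right K a hz
  subst c _ z hz := by
    unfold Com at hz ⊢
    induction hz using Submodule.span_induction with
    | mem x h =>
      obtain ⟨a, b, p, q, rfl⟩ := h
      exact Submodule.subset_span ⟨FreeAlgebra.lift K c a, FreeAlgebra.lift K c b,
        FreeAlgebra.lift K c p, FreeAlgebra.lift K c q, by simp only [map_mul, map_sub]⟩
    | zero => rw [map_zero]; exact zero_mem _
    | add x y _ _ hx hy => rw [map_add]; exact add_mem hx hy
    | smul r x _ hx => rw [map_smul]; exact Submodule.smul_mem _ r hx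

theorem isT_Fil (k : ℕ) : IsT (Fil K n k) := by
  induction k with
  | zero => rw [N.Fil_zero]; exact isT_top
  | succ k ih => rw [N.Fil_succ]; exact ih.mul isT_Com

theorem TId_mem_Jd {z : FA K n} : z ∈ S.Jd K n ↔ S.rho2 K n z = 0 := Iff.rfl

/-- Substitution on the level of the entries. -/
theorem TId_subst (c : Fin n → FA K n) (z : FA K n) :
    (MvPolynomial.aeval (R := K) fun e : Fin n × Fin 2 × Fin 2 =>
      S.rho2 K n (c e.1) e.2.1 e.2.2).mapMatrix (S.rho2 K n z) =
      S.rho2 K n (FreeAlgebra.lift K c z) := by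
  have h1 : ((MvPolynomial.aeval (R := K) fun e : Fin n × Fin 2 × Fin 2 =>
      S.rho2 K n (c e.1) e.2.1 e.2.2).mapMatrix (m := Fin 2)).comp (S.rho2 K n) =
      (S.rho2 K n).comp (FreeAlgebra.lift K c) := by
    apply FreeAlgebra.hom_ext
    funext i
    simp only [Function.comp_apply, AlgHom.comp_apply, FreeAlgebra.lift_ι_apply]
    ext a b
    simp [S.rho2, S.gm]
  exact DFunLike.congr_fun h1 z

/-- PROOF. For `c : Fin n → FA K n` the composition `rho2 ∘ lift c` is `(map of matrices) ∘ rho2`, where the map of matrices is induced by the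
`K`-algebra map of polynomial rings which sends `X (j, a, b)` to the entry `(a, b)` of `rho2 (c j)` (`FreeAlgebra.hom_ext`). -/
theorem isT_Jd : IsT (S.Jd K n) where
  left a z hz := by
    rw [TId_mem_Jd] at hz ⊢
    rw [map_mul, hz, mul_zero]
  right a z hz := by
    rw [TId_mem_Jd] at hz ⊢
    rw [map_mul, hz, zero_mul]
  subst c _ z hz := by
    rw [TId_mem_Jd] at hz ⊢
    rw [← TId_subst c z, hz, map_zero]

/-- A T-ideal which is not contained in `Aug` is everything. PROOF. Substitute `0` for the letters: `lift 0 z = algebraMapInv z` (as a constant) is in `T`,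
so `1 ∈ T`. -/
theorem IsT.le_Aug_or {T : Submodule K (FA K n)} (h : IsT T) : T ≤ Aug K n ∨ T = ⊤ := by
  by_cases hT : T ≤ Aug K n
  · exact Or.inl hT
  right
  obtain ⟨z, hz, hz'⟩ := SetLike.not_le_iff_exists.1 hT
  have h0 : (FreeAlgebra.algebraMapInv z : K) ≠ 0 := fun e => hz' (N.Basic_mem_Aug.2 e)
  have h1 := h.subst (fun _ => 0) (fun _ => zero_mem _) z hz
  have h2 : FreeAlgebra.lift K (fun _ : Fin n => (0 : FA K n)) =
      (Algebra.ofId K (FA K n)).comp FreeAlgebra.algebraMapInv := by
    apply FreeAlgebra.hom_ext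
    funext i
    simp [FreeAlgebra.algebraMapInv]
  have h3 : algebraMap K (FA K n) (FreeAlgebra.algebraMapInv z) ∈ T := by
    have h4 : FreeAlgebra.lift K (fun _ : Fin n => (0 : FA K n)) z =
        algebraMap K (FA K n) (FreeAlgebra.algebraMapInv z) := by
      rw [h2]
      rfl
    rw [← h4]
    exact h1
  rw [eq_top_iff]
  intro w _
  have h5 : w = ((FreeAlgebra.algebraMapInv z : K)⁻¹ • w) *
      algebraMap K (FA K n) (FreeAlgebra.algebraMapInv z) := by
    rw [← Algebra.commutes, ← Algebra.smul_def, smul_smul, mul_inv_cancel₀ h0, one_smul]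
  rw [h5]
  exact h.left _ _ h3

end Pool.Agent.H.MP_f5ceca_al.E
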