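import Pool.Agent.H.MP_f5ceca_al.E.Tgen

/-!
Job: the identities of rank `n` of a variety are the T-ideal generated by the defining identities.
-/

namespace Pool.Agent.H.MP_f5ceca_al.E

open Pool.Agent.H.MP_f5ceca_al.N (FA xx Com Fil Aug idn)

universe u

variable {K : Type u} [Field K] {n : ℕ}

theorem TIdn_comp {X : Type} {B : Type u} [Ring B] [Algebra K B] (π : FA K n →ₐ[K] B)
    (g : X → FA K n) (f : FreeAlgebra K X) :
    FreeAlgebra.lift K (fun i => π (g i)) f = π (FreeAlgebra.lift K g f) := by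
  have h : FreeAlgebra.lift K (fun i => π (g i)) = π.comp (FreeAlgebra.lift K g) := by
    apply FreeAlgebra.hom_ext
    funext i
    simp
  rw [h]
  rfl

theorem TIdn_xx (z : FA K n) : FreeAlgebra.lift K (xx K) z = z := by
  have h : FreeAlgebra.lift K (xx K : Fin n → FA K n) = AlgHom.id K (FA K n) := by
    apply FreeAlgebra.hom_ext
    funext i
    simp [xx]
  rw [h]
  rfl

theorem TIdn_emb (g : ℕ → FA K n) (z : FA K n) :
    FreeAlgebra.lift K g (emb K n z) = FreeAlgebra.lift K (fun j : Fin n => g j) z := by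
  have h : (FreeAlgebra.lift K g).comp (emb K n) = FreeAlgebra.lift K (fun j : Fin n => g j) := by
    apply FreeAlgebra.hom_ext
    funext i
    simp [emb]
  rw [← h]
  rfl

theorem TIdn_mem {S : Set (FreeAlgebra K ℕ)} {f : FreeAlgebra K ℕ} (hf : f ∈ S) {g : ℕ → FA K n}
    (hg : ∀ i, g i ∈ Aug K n) : FreeAlgebra.lift K g f ∈ Tset S n :=
  Submodule.subset_span ⟨1, 1, f, g, hf, hg, by rw [one_mul, mul_one]⟩

theorem TIdn_mono {S S' : Set (FreeAlgebra K ℕ)} (h : S ⊆ S') : Tset S n ≤ Tset S' n := by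
  apply Submodule.span_mono
  rintro z ⟨a, b, f, g, hf, hg, hz⟩
  exact ⟨a, b, f, g, h hf, hg, hz⟩

/-- PROOF. `≥`: `N.idn_of_mem`, `N.idn_left`, `N.idn_right`. `≤`: let `T = Tset S n` (`isT_Tset`). If `T = ⊤` clear, otherwise `T ≤ Aug`
(`IsT.le_Aug_or`), in particular `1 ∉ T`. Let `π : FA K n → B` be the quotient by `T` (`N.exists_quotient`), `B` nontrivial, and `A` the image of `Aug`, a
`NonUnitalSubalgebra K B`. Every `f ∈ S` vanishes on `A`: `lift (π ∘ g) f = π (lift g f)` and `lift g f ∈ T`. So `A` satisfies `S`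
(`G.identity_of_vanish`), and for `z ∈ idn S n` (`G.vanish_of_identity`, `y = π ∘ xx`) `π z = 0`, `z ∈ T`. (`G.Satisfies` and `N.Satisfies` etc. are
the same definitions, `Iff.rfl` or `show`.) -/
theorem idn_eq (S : Set (FreeAlgebra K ℕ)) : idn S n = Tset S n := by
  apply le_antisymm
  · intro z hz
    have hT := isT_Tset (K := K) (n := n) S
    rcases hT.le_Aug_or with hA | hA
    swap
    · rw [hA]
      trivial
    obtain ⟨B, _, _, π, hπ, hk⟩ := N.exists_quotient (Tset S n) hT.left hT.right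
    have hne : Nontrivial B := by
      refine ⟨⟨1, 0, fun h => ?_⟩⟩
      have h1 : (1 : FA K n) ∈ Tset S n := (hk 1).1 (by rw [map_one]; exact h)
      have h2 := hA h1
      rw [N.Basic_mem_Aug, map_one] at h2
      exact one_ne_zero h2
    let A : NonUnitalSubalgebra K B :=
      { carrier := {b | ∃ a ∈ Aug K n, π a = b}
        add_mem' := by
          rintro _ _ ⟨a, ha, rfl⟩ ⟨b, hb, rfl⟩
          exact ⟨a + b, add_mem ha hb, map_add π a b⟩
        zero_mem' := ⟨0, zero_mem _, map_zero π⟩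
        mul_mem' := by
          rintro _ _ ⟨a, ha, rfl⟩ ⟨b, hb, rfl⟩
          exact ⟨a * b, N.Aug_left a hb, map_mul π a b⟩
        smul_mem' := by
          rintro c _ ⟨a, ha, rfl⟩
          exact ⟨c • a, Submodule.smul_mem _ c ha, map_smul π c a⟩ }
    have hA' : ∀ b : B, b ∈ A ↔ ∃ a ∈ Aug K n, π a = b := fun b => Iff.rfl
    have hsat : G.Satisfies S A := by
      intro f hf
      refine G.identity_of_vanish A fun y hy => ?_
      choose g hg hgy using fun i => (hA' (y i)).1 (hy i)
      have e : y = fun i => π (g i) := funext fun i => (hgy i).symm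
      rw [e, TIdn_comp]
      exact (hk _).2 (TIdn_mem hf hg)
    have hid : G.IsIdentity z A := hz A hsat
    have h1 := G.vanish_of_identity A hid (fun j => π (xx K j))
      (fun j => (hA' _).2 ⟨xx K j, N.xx_mem_Aug K j, rfl⟩)
    rw [TIdn_comp, TIdn_xx] at h1
    exact (hk z).1 h1
  · unfold Tset
    rw [Submodule.span_le]
    rintro z ⟨a, b, f, g, hf, hg, rfl⟩
    exact N.idn_right S n b (N.idn_left S n a (N.idn_of_mem S n hf g hg))

/-- The polynomials all whose values on `Aug` are in `T`. -/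
def idset (T : Submodule K (FA K n)) : Set (FreeAlgebra K ℕ) :=
  {f | ∀ g : ℕ → FA K n, (∀ i, g i ∈ Aug K n) → FreeAlgebra.lift K g f ∈ T}

/-- PROOF. `idn_eq`. `Tset (idset T) n ≤ T` as `T` is an ideal; conversely for `z ∈ T` `emb K n z ∈ idset T` by `hT.subst` and
`z = lift (fun i => if h : i < n then xx K ⟨i, h⟩ else 0) (emb K n z)`. -/
theorem idn_idset {T : Submodule K (FA K n)} (hT : IsT T) : idn (idset T) n = T := by
  rw [idn_eq]
  apply le_antisymm
  · unfold Tset
    rw [Submodule.span_le]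
    rintro z ⟨a, b, f, g, hf, hg, rfl⟩
    exact hT.right _ _ (hT.left _ _ (hf g hg))
  · intro z hz
    have h1 : emb K n z ∈ idset T := by
      intro g hg
      rw [TIdn_emb]
      exact hT.subst _ (fun j => hg j) z hz
    set g0 : ℕ → FA K n := fun i => if h : i < n then xx K ⟨i, h⟩ else 0 with hg0
    have h2 : ∀ i, g0 i ∈ Aug K n := by
      intro i
      rw [hg0]
      by_cases h : i < n
      · simp only [h, dite_true]
        exact N.xx_mem_Aug K _
      · simp only [h, dite_false]
        exact zero_mem _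
    have h3 := TIdn_mem h1 h2
    rw [TIdn_emb] at h3
    have e : (fun j : Fin n => g0 j) = xx K := by
      funext j
      rw [hg0]
      simp only [j.2, dite_true]
    rw [e, TIdn_xx] at h3
    exact h3

/-- PROOF. `N.idn_of_mem`. -/
theorem subset_idset {S : Set (FreeAlgebra K ℕ)} {T : Submodule K (FA K n)} (h : idn S n ≤ T) :
    S ⊆ idset T := fun _ hf g hg => h (N.idn_of_mem S n hf g hg)

/-- PROOF. `idn_eq` for both sides and `Tg_eq`; `Tset (S ∪ S') n = Tset S n ⊔ Tset S' n`. -/
theorem idn_union_emb (S : Set (FreeAlgebra K ℕ)) (Y : Set (FA K n)) :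
    idn (S ∪ emb K n '' Y) n = idn S n ⊔ Tg Y := by
  rw [idn_eq, idn_eq, Tg_eq]
  apply le_antisymm
  · conv_lhs => unfold Tset
    rw [Submodule.span_le]
    rintro z ⟨a, b, f, g, hf | hf, hg, rfl⟩
    · exact Submodule.mem_sup_left (Submodule.subset_span ⟨a, b, f, g, hf, hg, rfl⟩)
    · exact Submodule.mem_sup_right (Submodule.subset_span ⟨a, b, f, g, hf, hg, rfl⟩)
  · exact sup_le (TIdn_mono Set.subset_union_left) (TIdn_mono Set.subset_union_right)

end Pool.Agent.H.MP_f5ceca_al.E
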