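import Pool.Agent.H.MP_f5ceca_al.E.TId

/-!
Job: generated T-ideals.
-/

namespace Pool.Agent.H.MP_f5ceca_al.E

open Pool.Agent.H.MP_f5ceca_al.N (FA xx Com Fil Aug idn)

universe u v w

variable {K : Type u} [Field K] {n : ℕ}

/-- The T-ideal of rank `n` generated by polynomials in countably many variables. -/
def Tset (S : Set (FreeAlgebra K ℕ)) (n : ℕ) : Submodule K (FA K n) :=
  Submodule.span K {z | ∃ (a b : FA K n) (f : FreeAlgebra K ℕ) (g : ℕ → FA K n), f ∈ S ∧
    (∀ i, g i ∈ Aug K n) ∧ z = a * FreeAlgebra.lift K g f * b}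

/-- The T-ideal generated by a subset of the free algebra of rank `n`. -/
def Tg (Y : Set (FA K n)) : Submodule K (FA K n) :=
  Submodule.span K {z | ∃ (a b y : FA K n) (c : Fin n → FA K n), y ∈ Y ∧ (∀ j, c j ∈ Aug K n) ∧
    z = a * FreeAlgebra.lift K c y * b}

theorem Tgen_comp {X : Type} {m k : ℕ} (c : Fin m → FA K k) (g : X → FA K m)
    (f : FreeAlgebra K X) : FreeAlgebra.lift K c (FreeAlgebra.lift K g f) =
      FreeAlgebra.lift K (fun i => FreeAlgebra.lift K c (g i)) f := by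
  have h : (FreeAlgebra.lift K c).comp (FreeAlgebra.lift K g) =
      FreeAlgebra.lift K (fun i => FreeAlgebra.lift K c (g i)) := by
    apply FreeAlgebra.hom_ext
    funext i
    simp only [Function.comp_apply, AlgHom.comp_apply, FreeAlgebra.lift_ι_apply]
  exact DFunLike.congr_fun h f

theorem Tgen_span {s : Set (FA K n)} (hl : ∀ a, ∀ z ∈ s, a * z ∈ s) (hr : ∀ a, ∀ z ∈ s, z * a ∈ s)
    (hs : ∀ c : Fin n → FA K n, (∀ j, c j ∈ Aug K n) → ∀ z ∈ s, FreeAlgebra.lift K c z ∈ s) :
    IsT (Submodule.span K s) where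
  left a _ hz := N.Basic_span_left s a (hl a) hz
  right a _ hz := N.Basic_span_right s a (hr a) hz
  subst c hc z hz := by
    induction hz using Submodule.span_induction with
    | mem x h => exact Submodule.subset_span (hs c hc x h)
    | zero => rw [map_zero]; exact zero_mem _
    | add x y _ _ hx hy => rw [map_add]; exact add_mem hx hy
    | smul r x _ hx => rw [map_smul]; exact Submodule.smul_mem _ r hx

/-- PROOF. `lift c (a * lift g f * b) = lift c a * lift (lift c ∘ g) f * lift c b`, `lift_mem_Aug`. -/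
theorem isT_Tset (S : Set (FreeAlgebra K ℕ)) : IsT (Tset S n) := by
  refine Tgen_span ?_ ?_ ?_
  · rintro a _ ⟨a', b, f, g, hf, hg, rfl⟩
    exact ⟨a * a', b, f, g, hf, hg, by simp only [mul_assoc]⟩
  · rintro a _ ⟨a', b, f, g, hf, hg, rfl⟩
    exact ⟨a', b * a, f, g, hf, hg, by simp only [mul_assoc]⟩
  · rintro c hc _ ⟨a', b, f, g, hf, hg, rfl⟩
    exact ⟨FreeAlgebra.lift K c a', FreeAlgebra.lift K c b, f, fun i => FreeAlgebra.lift K c (g i),
      hf, fun i => lift_mem_Aug hc (N.Basic_mem_Aug.1 (hg i)), by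
        rw [map_mul, map_mul, Tgen_comp]⟩

theorem isT_Tg (Y : Set (FA K n)) : IsT (Tg Y) := by
  refine Tgen_span ?_ ?_ ?_
  · rintro a _ ⟨a', b, y, c, hy, hc, rfl⟩
    exact ⟨a * a', b, y, c, hy, hc, by simp only [mul_assoc]⟩
  · rintro a _ ⟨a', b, y, c, hy, hc, rfl⟩
    exact ⟨a', b * a, y, c, hy, hc, by simp only [mul_assoc]⟩
  · rintro c' hc' _ ⟨a', b, y, c, hy, hc, rfl⟩
    exact ⟨FreeAlgebra.lift K c' a', FreeAlgebra.lift K c' b, y,
      fun i => FreeAlgebra.lift K c' (c i), hy,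
      fun i => lift_mem_Aug hc' (N.Basic_mem_Aug.1 (hc i)), by
        rw [map_mul, map_mul, Tgen_comp]⟩

/-- PROOF. `c = xx K`, `a = b = 1`; `lift (xx K) = id`. -/
theorem subset_Tg (Y : Set (FA K n)) : Y ⊆ Tg Y := by
  intro y hy
  refine Submodule.subset_span ⟨1, 1, y, xx K, hy, fun j => N.xx_mem_Aug K j, ?_⟩
  have h : FreeAlgebra.lift K (xx K : Fin n → FA K n) = AlgHom.id K (FA K n) := by
    apply FreeAlgebra.hom_ext
    funext i
    simp [xx]
  rw [h, one_mul, mul_one]
  rfl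

theorem Tg_le {Y : Set (FA K n)} {T : Submodule K (FA K n)} (hT : IsT T) (hY : Y ⊆ T) :
    Tg Y ≤ T := by
  refine Submodule.span_le.2 ?_
  rintro _ ⟨a, b, y, c, hy, hc, rfl⟩
  exact hT.right _ _ (hT.left _ _ (hT.subst c hc _ (hY hy)))

theorem Tg_mono {Y Y' : Set (FA K n)} (h : Y ⊆ Y') : Tg Y ≤ Tg Y' :=
  Tg_le (isT_Tg Y') (h.trans (subset_Tg Y'))

/-- The embedding of the free algebra of rank `n`. -/
noncomputable def emb (K : Type u) [Field K] (n : ℕ) : FA K n →ₐ[K] FreeAlgebra K ℕ :=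
  FreeAlgebra.lift K fun j => FreeAlgebra.ι K (j : ℕ)

/-- PROOF. `lift g (emb y) = lift (fun j => g j) y`; given `c : Fin n → FA K n` extend it by `0`. -/
theorem Tg_eq (Y : Set (FA K n)) : Tg Y = Tset (emb K n '' Y) n := by
  have he : ∀ (g : ℕ → FA K n) (y : FA K n), FreeAlgebra.lift K g (emb K n y) =
      FreeAlgebra.lift K (fun j : Fin n => g j) y := by
    intro g y
    have h : (FreeAlgebra.lift K g).comp (emb K n) =
        FreeAlgebra.lift K (fun j : Fin n => g j) := by
      apply FreeAlgebra.hom_ext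
      funext i
      simp [emb]
    exact DFunLike.congr_fun h y
  apply le_antisymm
  · refine Submodule.span_le.2 ?_
    rintro _ ⟨a, b, y, c, hy, hc, rfl⟩
    refine Submodule.subset_span ⟨a, b, emb K n y,
      fun i => if h : i < n then c ⟨i, h⟩ else 0, ⟨y, hy, rfl⟩, fun i => ?_, ?_⟩
    · by_cases h : i < n
      · simp only [h, dite_true]
        exact hc _
      · simp only [h, dite_false]
        exact zero_mem _
    · rw [he]
      congr 3
      have : (fun j : Fin n => if h : (j : ℕ) < n then c ⟨j, h⟩ else 0) = c := by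
        funext j
        simp
      rw [this]
  · refine Submodule.span_le.2 ?_
    rintro _ ⟨a, b, f, g, ⟨y, hy, rfl⟩, hg, rfl⟩
    rw [he]
    exact Submodule.subset_span ⟨a, b, y, fun j => g j, hy, fun j => hg j, rfl⟩

end Pool.Agent.H.MP_f5ceca_al.E
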